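import Pool.Agent.Lib.MP_239067_co.NTC.Loc

/-!
# Wgt (90): the total weight is at most `d n`

`three`: sign cases, `wt` is the maximum of three linear functions. `weight`: `2 ∑_e wt = ∑_v ∑_(e at v) wt ≤ ∑_v 2 d` (`loc`, `three`).
-/

set_option autoImplicit false

open Finset

namespace Pool.Agent.Lib.MP_239067_co.NTC

variable {n m : ℕ}

private theorem aux {d a b c : ℝ} (hd : 0 ≤ d) (hd2 : d < 1 / 2) (h : c = a + b) (ha : 1 - d ≤ a) (hb : 1 - d ≤ b)
    (hc : c ≤ 3 + d) : max (max (1 - a) (a - 3)) 0 + max (max (1 - b) (b - 3)) 0 + max (max (1 - c) (c - 3)) 0 ≤ 2 * d := by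
  have ea : max (max (1 - a) (a - 3)) 0 = max (1 - a) 0 := by
    rw [max_assoc, max_eq_right (show a - 3 ≤ 0 by linarith)]
  have eb : max (max (1 - b) (b - 3)) 0 = max (1 - b) 0 := by
    rw [max_assoc, max_eq_right (show b - 3 ≤ 0 by linarith)]
  have ec : max (max (1 - c) (c - 3)) 0 = max (c - 3) 0 := by
    rw [max_comm (1 - c), max_assoc, max_eq_right (show 1 - c ≤ 0 by linarith)]
  rw [ea, eb, ec]
  rcases le_total (1 - a) 0 with h1 | h1
  · rw [max_eq_right h1]
    rcases le_total (1 - b) 0 with h2 | h2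
    · rw [max_eq_right h2]
      rcases le_total (c - 3) 0 with h3 | h3
      · rw [max_eq_right h3]; linarith
      · rw [max_eq_left h3]; linarith
    · rw [max_eq_left h2]
      rcases le_total (c - 3) 0 with h3 | h3
      · rw [max_eq_right h3]; linarith
      · rw [max_eq_left h3]; linarith
  · rw [max_eq_left h1]
    rcases le_total (1 - b) 0 with h2 | h2
    · rw [max_eq_right h2]
      rcases le_total (c - 3) 0 with h3 | h3
      · rw [max_eq_right h3]; linarith
      · rw [max_eq_left h3]; linarith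
    · rw [max_eq_left h2]
      rcases le_total (c - 3) 0 with h3 | h3
      · rw [max_eq_right h3]; linarith
      · rw [max_eq_left h3]; linarith

theorem three {d x y z : ℝ} (hd : 0 ≤ d) (hd2 : d < 1 / 2) (h : x + y + z = 0) (hx : 1 - d ≤ |x| ∧ |x| ≤ 3 + d)
    (hy : 1 - d ≤ |y| ∧ |y| ≤ 3 + d) (hz : 1 - d ≤ |z| ∧ |z| ≤ 3 + d) : wt x + wt y + wt z ≤ 2 * d := by
  have key : |z| = |x| + |y| ∨ |y| = |x| + |z| ∨ |x| = |y| + |z| := by
    rcases le_total 0 x with h1 | h1 <;> rcases le_total 0 y with h2 | h2 <;> rcases le_total 0 z with h3 | h3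
    · rw [abs_of_nonneg h1] at *
      rw [abs_of_nonneg h2] at *
      rw [abs_of_nonneg h3] at *
      exfalso; linarith [hx.1]
    · left
      rw [abs_of_nonneg h1, abs_of_nonneg h2, abs_of_nonpos h3]; linarith
    · right; left
      rw [abs_of_nonneg h1, abs_of_nonpos h2, abs_of_nonneg h3]; linarith
    · right; right
      rw [abs_of_nonneg h1, abs_of_nonpos h2, abs_of_nonpos h3]; linarith
    · right; right
      rw [abs_of_nonpos h1, abs_of_nonneg h2, abs_of_nonneg h3]; linarith
    · right; left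
      rw [abs_of_nonpos h1, abs_of_nonneg h2, abs_of_nonpos h3]; linarith
    · left
      rw [abs_of_nonpos h1, abs_of_nonpos h2, abs_of_nonneg h3]; linarith
    · rw [abs_of_nonpos h1] at *
      rw [abs_of_nonpos h2] at *
      rw [abs_of_nonpos h3] at *
      exfalso; linarith [hx.1]
  unfold wt
  rcases key with hk | hk | hk
  · exact aux hd hd2 hk hx.1 hy.1 hz.2
  · have := aux hd hd2 hk hx.1 hz.1 hy.2
    linarith
  · have := aux hd hd2 hk hy.1 hz.1 hx.2
    linarith

private theorem wt_sg {x : ℝ} {k : ℤ} (hk : k = 1 ∨ k = -1) : |k • x| = |x| := by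
  rcases hk with rfl | rfl
  · rw [one_zsmul]
  · rw [neg_smul, one_smul, abs_neg]

theorem weight {s t : Fin m → Fin n} (hG : Cub s t) {d : ℝ} (hd : 0 ≤ d) (hd2 : d < 1 / 2) {f : Fin m → ℝ} (hf : Kir s t f)
    (hb : ∀ e, 1 - d ≤ |f e| ∧ |f e| ≤ 3 + d) : ∑ e, wt (f e) ≤ d * n := by
  have h1 : 2 * ∑ e, wt (f e) = ∑ v : Fin n, ∑ e ∈ univ.filter (fun e => s e = v ∨ t e = v), wt (f e) := by
    simp_rw [Finset.sum_filter]
    rw [Finset.sum_comm, Finset.mul_sum]
    refine Finset.sum_congr rfl fun e _ => ?_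
    have h2 : ∀ v, (if s e = v ∨ t e = v then wt (f e) else 0) =
        (if s e = v then wt (f e) else 0) + (if t e = v then wt (f e) else 0) := by
      intro v
      have h3 := hG.1 e
      by_cases h4 : s e = v
      · have h5 : t e ≠ v := fun h5 => h3 (h4.trans h5.symm)
        rw [if_pos (Or.inl h4), if_pos h4, if_neg h5, add_zero]
      · by_cases h5 : t e = v
        · rw [if_pos (Or.inr h5), if_neg h4, if_pos h5, zero_add]
        · rw [if_neg (by rintro (h | h) <;> contradiction), if_neg h4, if_neg h5, add_zero]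
    simp_rw [h2]
    rw [Finset.sum_add_distrib, Finset.sum_ite_eq, Finset.sum_ite_eq, if_pos (Finset.mem_univ _),
      if_pos (Finset.mem_univ _)]
    ring
  have h2 : ∀ v : Fin n, ∑ e ∈ univ.filter (fun e => s e = v ∨ t e = v), wt (f e) ≤ 2 * d := by
    intro v
    obtain ⟨a, b, c, hab, hac, hbc, hmem, σ, hσ, hz⟩ := loc hG v
    have e1 : univ.filter (fun e => s e = v ∨ t e = v) = {a, b, c} := by
      ext e
      simp only [Finset.mem_filter, Finset.mem_univ, true_and, Finset.mem_insert, Finset.mem_singleton]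
      exact hmem e
    rw [e1, Finset.sum_insert (by simp [hab, hac]), Finset.sum_insert (by simp [hbc]), Finset.sum_singleton]
    have h3 := hz f hf
    have g : ∀ e, |σ e • f e| = |f e| := fun e => wt_sg (hσ e)
    have h4 := three hd hd2 h3 (by rw [g]; exact hb a) (by rw [g]; exact hb b) (by rw [g]; exact hb c)
    have h5 : ∀ e, wt (σ e • f e) = wt (f e) := fun e => by unfold wt; rw [g]
    rw [h5, h5, h5] at h4
    linarith
  have h3 : ∑ v : Fin n, ∑ e ∈ univ.filter (fun e => s e = v ∨ t e = v), wt (f e) ≤ ∑ _v : Fin n, 2 * d :=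
    Finset.sum_le_sum fun v _ => h2 v
  rw [← h1, Finset.sum_const, Finset.card_univ, Fintype.card_fin, nsmul_eq_mul] at h3
  linarith

end Pool.Agent.Lib.MP_239067_co.NTC
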