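import Pool.Agent.Lib.MP_239067_co.NTC.Rnd
import Pool.Agent.Lib.MP_239067_co.NTC.Wgt

/-!
# Bad (130): an integer flow with few values divisible by 4

`round` with `c e = - sign` if `|f e| < 1`, `sign` if `|f e| > 3`, `0` otherwise: the indicator of `4 ∣ g e` is `k e + c e * g e` and `wt (f e) = k e + c e * f e` with
`k e = 1, -3, 0`. Sum and use `weight`. Matching: two edges of `B` at a vertex: then the third is in `B` too (`loc` for `g`); all three values of `|f|` are in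
`[1 - d, 1)` or in `(3, 3 + d]`, which contradicts `± f a ± f b ± f c = 0` (`loc` for `f`).
-/

set_option autoImplicit false

open Finset

namespace Pool.Agent.Lib.MP_239067_co.NTC

variable {n m : ℕ}

private noncomputable def bad_c (x : ℝ) : ℝ :=
  if |x| < 1 then (if 0 < x then -1 else 1) else if 3 < |x| then (if 0 < x then 1 else -1) else 0

private noncomputable def bad_k (x : ℝ) : ℝ :=
  if |x| < 1 then 1 else if 3 < |x| then -3 else 0

private theorem bad_wt (x : ℝ) : wt x = bad_k x + bad_c x * x := by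
  unfold wt bad_k bad_c
  by_cases h1 : |x| < 1
  · rw [if_pos h1, if_pos h1]
    by_cases h0 : 0 < x
    · rw [if_pos h0, max_eq_left, max_eq_left]
      · rw [abs_of_pos h0]; ring
      · linarith
      · rw [max_eq_left] <;> linarith
    · rw [if_neg h0, max_eq_left, max_eq_left]
      · rw [abs_of_nonpos (not_lt.mp h0)]; ring
      · linarith
      · rw [max_eq_left] <;> linarith
  · rw [if_neg h1, if_neg h1]
    have h1' : 1 ≤ |x| := not_lt.mp h1
    by_cases h3 : 3 < |x|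
    · rw [if_pos h3, if_pos h3]
      by_cases h0 : 0 < x
      · rw [if_pos h0, max_eq_left, max_eq_right]
        · rw [abs_of_pos h0]; ring
        · linarith
        · rw [max_eq_right] <;> linarith
      · rw [if_neg h0, max_eq_left, max_eq_right]
        · rw [abs_of_nonpos (not_lt.mp h0)]; ring
        · linarith
        · rw [max_eq_right] <;> linarith
    · rw [if_neg h3, if_neg h3, max_eq_right]
      · ring
      · have h3' : |x| ≤ 3 := not_lt.mp h3
        exact max_le (by linarith) (by linarith)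

private theorem bad_ind {d x : ℝ} (hd2 : d < 1 / 2) (hx : 1 - d ≤ |x| ∧ |x| ≤ 3 + d) {g : ℤ} (h1 : ⌊x⌋ ≤ g)
    (h2 : g ≤ ⌈x⌉) : (if (4 : ℤ) ∣ g then (1 : ℝ) else 0) = bad_k x + bad_c x * g ∧
      ((4 : ℤ) ∣ g → |x| < 1 ∨ 3 < |x|) := by
  obtain ⟨hx1, hx2⟩ := hx
  unfold bad_k bad_c
  rcases lt_or_ge 0 x with h0 | h0
  · rw [if_pos h0, if_pos h0]
    rw [abs_of_pos h0] at hx1 hx2 ⊢
    by_cases h3 : x < 1
    · rw [if_pos h3, if_pos h3]
      have g1 : 0 ≤ g := le_trans (Int.floor_nonneg.mpr h0.le) h1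
      have g2 : g ≤ 1 := le_trans h2 (Int.ceil_le.mpr (by push_cast; linarith))
      refine ⟨?_, fun _ => Or.inl h3⟩
      interval_cases g
      · norm_num
      · norm_num
    · rw [if_neg h3, if_neg h3]
      have h3' : 1 ≤ x := not_lt.mp h3
      by_cases h4 : 3 < x
      · rw [if_pos h4, if_pos h4]
        have g1 : 3 ≤ g := le_trans (Int.le_floor.mpr (by push_cast; linarith)) h1
        have g2 : g ≤ 4 := le_trans h2 (Int.ceil_le.mpr (by push_cast; linarith))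
        refine ⟨?_, fun _ => Or.inr h4⟩
        interval_cases g
        · norm_num
        · norm_num
      · rw [if_neg h4, if_neg h4]
        have h4' : x ≤ 3 := not_lt.mp h4
        have g1 : 1 ≤ g := le_trans (Int.le_floor.mpr (by push_cast; linarith)) h1
        have g2 : g ≤ 3 := le_trans h2 (Int.ceil_le.mpr (by push_cast; linarith))
        have hn : ¬ (4 : ℤ) ∣ g := by
          intro h; omega
        refine ⟨?_, fun h => absurd h hn⟩
        rw [if_neg hn]; ring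
  · rw [if_neg (not_lt.mpr h0), if_neg (not_lt.mpr h0)]
    rw [abs_of_nonpos h0] at hx1 hx2 ⊢
    by_cases h3 : -x < 1
    · rw [if_pos h3, if_pos h3]
      have g1 : -1 ≤ g := le_trans (Int.le_floor.mpr (by push_cast; linarith)) h1
      have g2 : g ≤ 0 := le_trans h2 (Int.ceil_le.mpr (by push_cast; linarith))
      refine ⟨?_, fun _ => Or.inl h3⟩
      interval_cases g
      · norm_num
      · norm_num
    · rw [if_neg h3, if_neg h3]
      have h3' : 1 ≤ -x := not_lt.mp h3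
      by_cases h4 : 3 < -x
      · rw [if_pos h4, if_pos h4]
        have g1 : -4 ≤ g := le_trans (Int.le_floor.mpr (by push_cast; linarith)) h1
        have g2 : g ≤ -3 := le_trans h2 (Int.ceil_le.mpr (by push_cast; linarith))
        refine ⟨?_, fun _ => Or.inr h4⟩
        interval_cases g
        · norm_num
        · norm_num
      · rw [if_neg h4, if_neg h4]
        have h4' : -x ≤ 3 := not_lt.mp h4
        have g1 : -3 ≤ g := le_trans (Int.le_floor.mpr (by push_cast; linarith)) h1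
        have g2 : g ≤ -1 := le_trans h2 (Int.ceil_le.mpr (by push_cast; linarith))
        have hn : ¬ (4 : ℤ) ∣ g := by
          intro h; omega
        refine ⟨?_, fun h => absurd h hn⟩
        rw [if_neg hn]; ring

private theorem bad_key {d x y z : ℝ} (hd2 : d < 1 / 2) (hx : (1 - d ≤ |x| ∧ |x| < 1) ∨ (3 < |x| ∧ |x| ≤ 3 + d))
    (hy : (1 - d ≤ |y| ∧ |y| < 1) ∨ (3 < |y| ∧ |y| ≤ 3 + d))
    (hz : (1 - d ≤ |z| ∧ |z| < 1) ∨ (3 < |z| ∧ |z| ≤ 3 + d)) (h : x + y + z = 0) : False := by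
  rcases abs_cases x with ⟨ex, sx⟩ | ⟨ex, sx⟩ <;> rcases abs_cases y with ⟨ey, sy⟩ | ⟨ey, sy⟩ <;>
    rcases abs_cases z with ⟨ez, sz⟩ | ⟨ez, sz⟩ <;> rw [ex] at hx <;> rw [ey] at hy <;> rw [ez] at hz <;>
    rcases hx with ⟨hx1, hx2⟩ | ⟨hx1, hx2⟩ <;> rcases hy with ⟨hy1, hy2⟩ | ⟨hy1, hy2⟩ <;>
    rcases hz with ⟨hz1, hz2⟩ | ⟨hz1, hz2⟩ <;> linarith

private theorem bad_abs {σ : ℤ} (h : σ = 1 ∨ σ = -1) (x : ℝ) : |σ • x| = |x| := by
  rcases h with h | h
  · subst h; simp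
  · subst h; simp

private theorem bad_dvd {p q r : ℤ} {x y z : ℤ} (hp : p = 1 ∨ p = -1) (hq : q = 1 ∨ q = -1) (hr : r = 1 ∨ r = -1)
    (h : p • x + q • y + r • z = 0) :
    ((4 : ℤ) ∣ x → (4 : ℤ) ∣ y → (4 : ℤ) ∣ z) ∧ ((4 : ℤ) ∣ x → (4 : ℤ) ∣ z → (4 : ℤ) ∣ y) ∧
      ((4 : ℤ) ∣ y → (4 : ℤ) ∣ z → (4 : ℤ) ∣ x) := by
  rcases hp with rfl | rfl <;> rcases hq with rfl | rfl <;> rcases hr with rfl | rfl <;>
    simp only [one_smul, neg_smul] at h <;> refine ⟨fun h1 h2 => ?_, fun h1 h2 => ?_, fun h1 h2 => ?_⟩ <;> omega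

theorem bad {s t : Fin m → Fin n} (hG : Cub s t) {d : ℝ} (hd : 0 ≤ d) (hd2 : d < 1 / 2) {f : Fin m → ℝ} (hf : Kir s t f)
    (hb : ∀ e, 1 - d ≤ |f e| ∧ |f e| ≤ 3 + d) : ∃ g : Fin m → ℤ, Kir s t g ∧
      ((univ.filter (fun e => (4 : ℤ) ∣ g e)).card : ℝ) ≤ d * n ∧ Mtg s t (univ.filter (fun e => (4 : ℤ) ∣ g e)) := by
  classical
  obtain ⟨g, hg, hgb, hgc⟩ := round s t hG.1 f hf (fun e => bad_c (f e))
  refine ⟨g, hg, ?_, ?_⟩
  · have h1 : ((univ.filter (fun e => (4 : ℤ) ∣ g e)).card : ℝ) =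
        ∑ e, (bad_k (f e) + bad_c (f e) * (g e : ℝ)) := by
      rw [Finset.card_filter]
      push_cast
      exact Finset.sum_congr rfl (fun e _ => (bad_ind hd2 (hb e) (hgb e).1 (hgb e).2).1)
    have h2 : ∑ e, wt (f e) = ∑ e, (bad_k (f e) + bad_c (f e) * f e) :=
      Finset.sum_congr rfl (fun e _ => bad_wt (f e))
    have h3 := weight hG hd hd2 hf hb
    rw [h2] at h3
    rw [h1]
    rw [Finset.sum_add_distrib] at h3 ⊢
    linarith
  · intro v
    have hI : ∀ e, (4 : ℤ) ∣ g e → (1 - d ≤ |f e| ∧ |f e| < 1) ∨ (3 < |f e| ∧ |f e| ≤ 3 + d) := by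
      intro e he
      rcases (bad_ind hd2 (hb e) (hgb e).1 (hgb e).2).2 he with h | h
      · exact Or.inl ⟨(hb e).1, h⟩
      · exact Or.inr ⟨h, (hb e).2⟩
    obtain ⟨a, b, c, hab, hac, hbc, hinc, σ, hσ, hK⟩ := loc hG v
    have hgK := hK g hg
    have hfK := hK f hf
    obtain ⟨d1, d2, d3⟩ := bad_dvd (hσ a) (hσ b) (hσ c) hgK
    have hno : ¬ ((4 : ℤ) ∣ g a ∧ (4 : ℤ) ∣ g b ∧ (4 : ℤ) ∣ g c) := by
      rintro ⟨ha, hb', hc⟩
      refine bad_key (x := σ a • f a) (y := σ b • f b) (z := σ c • f c) hd2 ?_ ?_ ?_ hfK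
      · rw [bad_abs (hσ a)]; exact hI a ha
      · rw [bad_abs (hσ b)]; exact hI b hb'
      · rw [bad_abs (hσ c)]; exact hI c hc
    rw [Finset.card_le_one]
    intro x hx y hy
    rw [Finset.mem_filter, Finset.mem_filter] at hx hy
    obtain ⟨⟨-, hx1⟩, hx2⟩ := hx
    obtain ⟨⟨-, hy1⟩, hy2⟩ := hy
    have hx3 := (hinc x).mp hx2
    have hy3 := (hinc y).mp hy2
    by_contra hne
    apply hno
    rcases hx3 with rfl | rfl | rfl <;> rcases hy3 with rfl | rfl | rfl
    · exact absurd rfl hne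
    · exact ⟨hx1, hy1, d1 hx1 hy1⟩
    · exact ⟨hx1, d2 hx1 hy1, hy1⟩
    · exact ⟨hy1, hx1, d1 hy1 hx1⟩
    · exact absurd rfl hne
    · exact ⟨d3 hx1 hy1, hx1, hy1⟩
    · exact ⟨hy1, d2 hy1 hx1, hx1⟩
    · exact ⟨d3 hy1 hx1, hy1, hx1⟩
    · exact absurd rfl hne

end Pool.Agent.Lib.MP_239067_co.NTC
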