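import Mathlib

/-!
# MP_239067_co / NTC: circular flow number near 4 and 3-edge-colourability, definitions
-/

set_option autoImplicit false

open Finset

namespace Pool.Agent.Lib.MP_239067_co.NTC

variable {n m : ℕ}

/-- Kirchhoff's law -/
def Kir {A : Type} [AddCommGroup A] (s t : Fin m → Fin n) (f : Fin m → A) : Prop :=
  ∀ v : Fin n, ∑ e ∈ univ.filter (fun e => s e = v), f e = ∑ e ∈ univ.filter (fun e => t e = v), f e

/-- loopless cubic multigraph -/
def Cub (s t : Fin m → Fin n) : Prop :=
  (∀ e, s e ≠ t e) ∧ ∀ v : Fin n, (univ.filter (fun e => s e = v)).card + (univ.filter (fun e => t e = v)).card = 3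

/-- even subgraph -/
def Evn (s t : Fin m → Fin n) (C : Finset (Fin m)) : Prop :=
  ∀ v : Fin n, Even (C.filter (fun e => s e = v ∨ t e = v)).card

/-- matching -/
def Mtg (s t : Fin m → Fin n) (B : Finset (Fin m)) : Prop :=
  ∀ v : Fin n, (B.filter (fun e => s e = v ∨ t e = v)).card ≤ 1

/-- the fractional number of bad values -/
noncomputable def wt (x : ℝ) : ℝ := max (max (1 - |x|) (|x| - 3)) 0

end Pool.Agent.Lib.MP_239067_co.NTC
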