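import Pool.Agent.Lib.MP_239067_co.NTC.Rnd

/-!
# Evs (70): two even subgraphs from an integer flow

`C₁ = {g e odd}`; `h` = `round` of `g / 2` (cost `0`), `C₂ = {h e odd}`. If `g e = 4 k` then `h e = 2 k`; if `g e = 4 k + 2` then `h e = 2 k + 1`. The odd values of an
integer flow form an even subgraph: `Finset.even_sum_iff_even_card_odd` for the sum over the edges at `v` (difference of the two sums is `0`).
-/

set_option autoImplicit false

open Finset

namespace Pool.Agent.Lib.MP_239067_co.NTC

variable {n m : ℕ}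

private theorem evs_card (A : Finset (Fin m)) (g : Fin m → ℤ) :
    Even (∑ e ∈ A, g e) ↔ Even (A.filter (fun e => Odd (g e))).card := by
  classical
  induction A using Finset.induction_on with
  | empty => simp
  | @insert a A ha ih =>
    rw [Finset.sum_insert ha, Finset.filter_insert]
    split_ifs with h
    · rw [Finset.card_insert_of_notMem (fun h1 => ha (Finset.mem_filter.1 h1).1), Int.even_add,
        Nat.even_add_one, ih]
      have h1 : ¬ Even (g a) := Int.not_even_iff_odd.2 h
      tauto
    · have h1 : Even (g a) := Int.not_odd_iff_even.1 h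
      rw [Int.even_add, ih]
      tauto

private theorem evs_odd {s t : Fin m → Fin n} (hl : ∀ e, s e ≠ t e) {g : Fin m → ℤ} (hg : Kir s t g) :
    Evn s t (univ.filter (fun e => Odd (g e))) := by
  classical
  intro v
  rw [Finset.filter_comm, ← evs_card, Finset.filter_or, Finset.sum_union, ← hg v]
  · exact ⟨_, rfl⟩
  · rw [Finset.disjoint_left]
    intro e h1 h2
    exact hl e ((Finset.mem_filter.1 h1).2.trans (Finset.mem_filter.1 h2).2.symm)

theorem evens {s t : Fin m → Fin n} (hl : ∀ e, s e ≠ t e) {g : Fin m → ℤ} (hg : Kir s t g) :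
    ∃ C₁ C₂ : Finset (Fin m), Evn s t C₁ ∧ Evn s t C₂ ∧ C₁ ∪ C₂ = (univ.filter (fun e => (4 : ℤ) ∣ g e))ᶜ := by
  classical
  have hf : Kir s t (fun e => (g e : ℝ) / 2) := by
    intro v
    rw [← Finset.sum_div, ← Finset.sum_div]
    congr 1
    exact_mod_cast hg v
  obtain ⟨h, h1, h2, -⟩ := round s t hl (fun e => (g e : ℝ) / 2) hf 0
  refine ⟨_, _, evs_odd hl hg, evs_odd hl h1, ?_⟩
  ext e
  simp only [mem_union, mem_filter, mem_univ, true_and, mem_compl]
  rcases Int.even_or_odd' (g e) with ⟨k, hk | hk⟩
  · have h3 : (g e : ℝ) / 2 = (k : ℤ) := by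
      rw [hk]
      push_cast
      ring
    have h4 := h2 e
    simp only [h3, Int.floor_intCast, Int.ceil_intCast] at h4
    have h5 : h e = k := le_antisymm h4.2 h4.1
    rw [h5, hk]
    constructor
    · rintro (h6 | h6)
      · obtain ⟨j, hj⟩ := h6
        omega
      · obtain ⟨j, hj⟩ := h6
        omega
    · intro h6
      right
      rcases Int.even_or_odd' k with ⟨j, hj | hj⟩
      · exact absurd ⟨j, by omega⟩ h6
      · exact ⟨j, hj⟩
  · constructor
    · intro _ h6
      obtain ⟨j, hj⟩ := h6
      omega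
    · intro _
      exact Or.inl ⟨k, hk⟩

end Pool.Agent.Lib.MP_239067_co.NTC
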