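import Pool.Agent.Lib.MP_239067_co.NTC.FDefs

/-!
# FCop (100): `T` copies

Copy `c` of the vertex `v` is `(c, v)`. The edges at `(c, v)` are the `(c, e)`, `e` at `v` (injective image). If the set `X` of the uncovered edges has fewer than `T` elements,
some copy `c` contains none (the image of `X` under the first component is not everything), and the sets of the `e` with `(c, e)` in `C₁`, `C₂` (in `M i`) contradict `hc` (`hm`).
-/

set_option autoImplicit false

open Finset

namespace Pool.Agent.Lib.MP_239067_co.NTC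

/-- the ends in the copies -/
def cs {V E : Type} (T : ℕ) (s : E → V) (e : Fin T × E) : Fin T × V := (e.1, s e.2)

/-- the copy `c` of the edges -/
private def emb {E : Type} {T : ℕ} (c : Fin T) : E ↪ Fin T × E := ⟨fun e => (c, e), fun _ _ h => (Prod.mk.inj h).2⟩

private theorem filt {V E : Type} [Fintype E] [DecidableEq V] {T : ℕ} (s : E → V) (c : Fin T) (v : V) :
    univ.filter (fun e : Fin T × E => cs T s e = (c, v)) = (univ.filter (fun e => s e = v)).map (emb c) := by
  ext ⟨c', e⟩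
  simp only [mem_filter, mem_univ, true_and, mem_map, cs, Prod.mk.injEq, emb, Function.Embedding.coeFn_mk]
  constructor
  · rintro ⟨rfl, h⟩
    exact ⟨e, h, rfl, rfl⟩
  · rintro ⟨e', h, rfl, rfl⟩
    exact ⟨rfl, h⟩

private theorem filt2 {V E : Type} [Fintype E] [DecidableEq V] [DecidableEq E] {T : ℕ} (s t : E → V)
    (C : Finset (Fin T × E)) (c : Fin T) (v : V) :
    C.filter (fun e => cs T s e = (c, v) ∨ cs T t e = (c, v)) =
      ((univ.filter (fun e => (c, e) ∈ C)).filter (fun e => s e = v ∨ t e = v)).map (emb c) := by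
  ext ⟨c', e⟩
  simp only [mem_filter, mem_univ, true_and, mem_map, cs, Prod.mk.injEq, emb, Function.Embedding.coeFn_mk]
  constructor
  · rintro ⟨h1, ⟨rfl, h⟩ | ⟨rfl, h⟩⟩
    · exact ⟨e, ⟨h1, Or.inl h⟩, rfl, rfl⟩
    · exact ⟨e, ⟨h1, Or.inr h⟩, rfl, rfl⟩
  · rintro ⟨e', ⟨h1, h | h⟩, rfl, rfl⟩
    · exact ⟨h1, Or.inl ⟨rfl, h⟩⟩
    · exact ⟨h1, Or.inr ⟨rfl, h⟩⟩

private theorem free_copy {E : Type} [DecidableEq E] {T : ℕ} (X : Finset (Fin T × E)) (h : X.card < T) :
    ∃ c : Fin T, ∀ e, (c, e) ∉ X := by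
  have h1 : (X.image Prod.fst).card < (univ : Finset (Fin T)).card := by
    rw [card_univ, Fintype.card_fin]
    exact card_image_le.trans_lt h
  obtain ⟨c, -, hc⟩ := exists_mem_notMem_of_card_lt_card h1
  exact ⟨c, fun e he => hc (mem_image.2 ⟨(c, e), he, rfl⟩)⟩

theorem cop_cub {V E : Type} [Fintype E] [DecidableEq V] (T : ℕ) {s t : E → V} (hG : CubG s t) : CubG (cs T s) (cs T t) := by
  refine ⟨fun e h => hG.1 e.2 (Prod.mk.inj h).2, ?_⟩
  rintro ⟨c, v⟩
  rw [filt, filt, card_map, card_map]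
  exact hG.2 v

theorem cop_kir {V E : Type} [Fintype E] [DecidableEq V] (T : ℕ) {s t : E → V} {f : E → ℤ} (hf : KirG s t f) :
    KirG (cs T s) (cs T t) (fun e => f e.2) := by
  rintro ⟨c, v⟩
  rw [filt, filt, sum_map, sum_map]
  exact hf v

theorem cop_evn {V E : Type} [Fintype E] [DecidableEq V] [DecidableEq E] (T : ℕ) {s t : E → V}
    (hc : ∀ C₁ C₂ : Finset E, EvnG s t C₁ → EvnG s t C₂ → (∀ e, e ∈ C₁ ∨ e ∈ C₂) → False) (C₁ C₂ : Finset (Fin T × E))
    (h1 : EvnG (cs T s) (cs T t) C₁) (h2 : EvnG (cs T s) (cs T t) C₂) :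
    T ≤ (univ.filter (fun e => e ∉ C₁ ∧ e ∉ C₂)).card := by
  by_contra hT
  obtain ⟨c, hX⟩ := free_copy _ (not_le.1 hT)
  refine hc (univ.filter (fun e => (c, e) ∈ C₁)) (univ.filter (fun e => (c, e) ∈ C₂)) ?_ ?_ ?_
  · intro v
    have := h1 (c, v)
    rwa [filt2, card_map] at this
  · intro v
    have := h2 (c, v)
    rwa [filt2, card_map] at this
  · intro e
    have := hX e
    simp only [mem_filter, mem_univ, true_and] at this ⊢
    tauto

theorem cop_mtg {V E : Type} [Fintype E] [DecidableEq V] [DecidableEq E] (T : ℕ) {s t : E → V}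
    (hm : ∀ M : Fin 3 → Finset E, (∀ i, MtgG s t (M i)) → (∀ i j, i ≠ j → Disjoint (M i) (M j)) → (∀ e, ∃ i, e ∈ M i) → False)
    (M : Fin 3 → Finset (Fin T × E)) (h1 : ∀ i, MtgG (cs T s) (cs T t) (M i)) (h2 : ∀ i j, i ≠ j → Disjoint (M i) (M j)) :
    T ≤ (univ.filter (fun e => ∀ i, e ∉ M i)).card := by
  by_contra hT
  obtain ⟨c, hX⟩ := free_copy _ (not_le.1 hT)
  refine hm (fun i => univ.filter (fun e => (c, e) ∈ M i)) ?_ ?_ ?_
  · intro i v
    have := h1 i (c, v)
    rwa [filt2, card_map] at this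
  · intro i j hij
    refine disjoint_left.2 (fun e he he' => ?_)
    exact disjoint_left.1 (h2 i j hij) (mem_filter.1 he).2 (mem_filter.1 he').2
  · intro e
    have := hX e
    simp only [mem_filter, mem_univ, true_and] at this ⊢
    push Not at this
    exact this

end Pool.Agent.Lib.MP_239067_co.NTC
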