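import Pool.Agent.Lib.MP_239067_co.NTC.FDefs

/-!
# FCore (120): the flower snark is not the union of two even subgraphs

PROOF IN WORDS. Colour of `e`: the pair of Booleans (`e ∈ C₁`, `e ∈ C₂`), not (false, false). At every vertex the xor of the three colours is zero (even subgraphs; three
edges). Let `s i` be the triple of the colours of the strand edges `(i, 3), (i, 4), (i, 5)`, `i < N = 2 k + 1`, and `s N` = `s 0` with the second and the third exchanged. Block
`i`: the claw edges have the colours `s i + s (i + 1)` in the three positions (vertices `b`, `c`, `d`), so these are nonzero, and their sum is zero (vertex `a`): relation `R (s i) (s (i + 1))`: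
all six colours nonzero, the three positions differ, the xor of the three components is the same. FINITE FACTS (decide, 64 states): `R` implies the same total xor `σ`. If `σ = 0`,
the three components are the three nonzero colours, `Φ` = the sign of this permutation is kept by `R` and changed by the exchange. If `σ ≠ 0`, two components are equal, to
`α ≠ σ` (all equal to `σ` is impossible: `R` fails), `Φ` = whether `α` is the smaller of the two colours other than `σ`: `R` changes `Φ`, the exchange keeps it. As `N` is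
odd this is a contradiction in both cases. (One `Φ : state → Bool`, with: `R x y → Φ y = xor (Φ x) (σ x ≠ 0)` and for such `x`: `Φ (exchange x) = xor (Φ x) (σ x = 0)`.)
-/

set_option autoImplicit false

open Finset

namespace Pool.Agent.Lib.MP_239067_co.NTC

/-- colours are the numbers 0, 1, 2, 3; xor -/
private def cx (a b : Fin 4) : Fin 4 := a ^^^ b

private def cc (a b : Bool) : Fin 4 :=
  match a, b with
  | false, false => 0
  | true, false => 1
  | false, true => 2
  | true, true => 3

private theorem cc_ne (a b : Bool) (h : a = true ∨ b = true) : cc a b ≠ 0 := by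
  cases a <;> cases b <;> simp_all [cc]

private theorem cc_xor (a b c a' b' c' : Bool) (h : xor (xor a b) c = false) (h' : xor (xor a' b') c' = false) :
    cc a a' = cx (cc b b') (cc c c') := by
  revert a b c a' b' c'
  decide

private abbrev St : Type := Fin 4 × Fin 4 × Fin 4

private def sg (x : St) : Fin 4 := cx x.1 (cx x.2.1 x.2.2)

private def nx (a : Fin 4) : Fin 4 :=
  match a with
  | 0 => 0
  | 1 => 2
  | 2 => 3
  | 3 => 1

private def ph (x : St) : Bool :=
  if sg x = 0 then decide (x.2.1 = nx x.1)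
  else
    let al := if x.1 = sg x then x.2.1 else x.1
    decide (al < cx al (sg x))

private def R (x y : St) : Bool :=
  decide (x.1 ≠ 0) && decide (x.2.1 ≠ 0) && decide (x.2.2 ≠ 0) && decide (y.1 ≠ 0) && decide (y.2.1 ≠ 0) &&
  decide (y.2.2 ≠ 0) && decide (x.1 ≠ y.1) && decide (x.2.1 ≠ y.2.1) && decide (x.2.2 ≠ y.2.2) &&
  decide (sg x = sg y)

private def ex (x : St) : St := (x.1, x.2.2, x.2.1)

private theorem fact1 : ∀ x y : St, R x y = true → ph y = xor (ph x) (decide (sg x ≠ 0)) := by
  decide +kernel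

private theorem fact2 : ∀ x y : St, R x y = true → ph (ex x) = xor (ph x) (decide (sg x = 0)) := by
  decide +kernel

private theorem fact3 : ∀ x y : St, R x y = true → sg x = sg y := by
  decide +kernel

private theorem par3 {E : Type} [DecidableEq E] (C : Finset E) (P : E → Prop) [DecidablePred P] (e₁ e₂ e₃ : E)
    (h12 : e₁ ≠ e₂) (h13 : e₁ ≠ e₃) (h23 : e₂ ≠ e₃) (hP : ∀ e, P e ↔ e = e₁ ∨ e = e₂ ∨ e = e₃)
    (hev : Even (C.filter P).card) :
    xor (xor (decide (e₁ ∈ C)) (decide (e₂ ∈ C))) (decide (e₃ ∈ C)) = false := by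
  have h0 : C.filter P = ({e₁, e₂, e₃} : Finset E).filter (fun e => e ∈ C) := by
    ext e
    simp only [mem_filter, hP, mem_insert, mem_singleton]
    tauto
  rw [h0] at hev
  by_cases a : e₁ ∈ C <;> by_cases b : e₂ ∈ C <;> by_cases c : e₃ ∈ C <;>
    simp [Finset.filter_insert, Finset.filter_singleton, a, b, c, h12, h13, h23] at hev ⊢ <;>
    exact absurd hev (by decide)

section

variable {k : ℕ}

private theorem prv_eq {i j : Fin (2 * k + 1)} : prv i = j ↔ i = j + 1 := by
  unfold prv
  constructor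
  · intro h
    rw [← h, sub_add_cancel]
  · intro h
    rw [h, add_sub_cancel_right]

private theorem at_a (i : Fin (2 * k + 1)) (e : Fin (2 * k + 1) × Fin 6) :
    (fs e = (i, 0) ∨ ft e = (i, 0)) ↔ e = (i, 0) ∨ e = (i, 1) ∨ e = (i, 2) := by
  obtain ⟨j, m⟩ := e
  fin_cases m <;> simp [fs, ft]
  · split_ifs <;> intro _ <;> decide
  · split_ifs <;> intro _ <;> decide

private theorem at_b (i : Fin (2 * k + 1)) (e : Fin (2 * k + 1) × Fin 6) :
    (fs e = (i, 1) ∨ ft e = (i, 1)) ↔ e = (i, 0) ∨ e = (i, 3) ∨ e = (i + 1, 3) := by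
  obtain ⟨j, m⟩ := e
  fin_cases m <;> simp [fs, ft, prv_eq]
  · tauto
  · split_ifs <;> simp
  · split_ifs <;> simp

private theorem at_c (i : Fin (2 * k + 1)) (e : Fin (2 * k + 1) × Fin 6) :
    (fs e = (i, 2) ∨ ft e = (i, 2)) ↔ e = (i, 1) ∨ e = (i, 4) ∨ e = (i + 1, if i + 1 = 0 then 5 else 4) := by
  obtain ⟨j, m⟩ := e
  fin_cases m <;> simp [fs, ft, prv_eq]
  · split_ifs <;> simp
  · split_ifs <;> simp
  · split_ifs <;> simp
  · split_ifs <;> simp
  · by_cases h0 : j = 0
    · subst h0
      by_cases h1 : i + 1 = 0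
      · simp [h1]
      · simp [h1, Ne.symm h1]
    · by_cases h1 : i + 1 = 0
      · simp [h1, h0]
      · simp [h1, h0]
        tauto
  · by_cases h0 : j = 0
    · subst h0
      by_cases h1 : i + 1 = 0
      · simp [h1]
      · simp [h1, Ne.symm h1]
    · by_cases h1 : i + 1 = 0
      · simp [h1, h0]
      · simp [h1, h0]

private theorem at_d (i : Fin (2 * k + 1)) (e : Fin (2 * k + 1) × Fin 6) :
    (fs e = (i, 3) ∨ ft e = (i, 3)) ↔ e = (i, 2) ∨ e = (i, 5) ∨ e = (i + 1, if i + 1 = 0 then 4 else 5) := by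
  obtain ⟨j, m⟩ := e
  fin_cases m <;> simp [fs, ft, prv_eq]
  · split_ifs <;> simp
  · split_ifs <;> simp
  · split_ifs <;> simp
  · split_ifs <;> simp
  · by_cases h0 : j = 0
    · subst h0
      by_cases h1 : i + 1 = 0
      · simp [h1]
      · simp [h1, Ne.symm h1]
    · by_cases h1 : i + 1 = 0
      · simp [h1, h0]
      · simp [h1, h0]
  · by_cases h0 : j = 0
    · subst h0
      by_cases h1 : i + 1 = 0
      · simp [h1]
      · simp [h1, Ne.symm h1]
    · by_cases h1 : i + 1 = 0
      · simp [h1, h0]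
      · simp [h1, h0]
        tauto

end

private theorem cx_ne : ∀ a b : Fin 4, cx a b ≠ 0 → a ≠ b := by decide

private theorem cx_sum : ∀ a b c a' b' c' : Fin 4, cx a a' = cx (cx b b') (cx c c') →
    cx a (cx b c) = cx a' (cx b' c') := by
  decide +kernel

theorem fcore {k : ℕ} (hk : 1 ≤ k) (C₁ C₂ : Finset (Fin (2 * k + 1) × Fin 6)) (h1 : EvnG (fs (k := k)) (ft (k := k)) C₁)
    (h2 : EvnG (fs (k := k)) (ft (k := k)) C₂) (h : ∀ e, e ∈ C₁ ∨ e ∈ C₂) : False := by
  classical
  set col : Fin (2 * k + 1) × Fin 6 → Fin 4 := fun e => cc (decide (e ∈ C₁)) (decide (e ∈ C₂)) with hcol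
  have hne : ∀ e, col e ≠ 0 := by
    intro e
    apply cc_ne
    simpa using h e
  -- three edges at a vertex
  have three : ∀ (v : Fin (2 * k + 1) × Fin 4) (e₁ e₂ e₃ : Fin (2 * k + 1) × Fin 6), e₁ ≠ e₂ → e₁ ≠ e₃ → e₂ ≠ e₃ →
      (∀ e, (fs e = v ∨ ft e = v) ↔ e = e₁ ∨ e = e₂ ∨ e = e₃) → col e₁ = cx (col e₂) (col e₃) := by
    intro v e₁ e₂ e₃ h12 h13 h23 hP
    exact cc_xor _ _ _ _ _ _ (par3 C₁ _ e₁ e₂ e₃ h12 h13 h23 hP (by convert h1 v))
      (par3 C₂ _ e₁ e₂ e₃ h12 h13 h23 hP (by convert h2 v))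
  set st : Fin (2 * k + 1) → St := fun i => (col (i, 3), col (i, 4), col (i, 5)) with hst
  have hone : ∀ i : Fin (2 * k + 1), i + 1 ≠ i := by
    intro i hi
    have : (1 : Fin (2 * k + 1)) = 0 := by
      have := congrArg (fun z => z - i) hi
      simpa using this
    have h5 := congrArg Fin.val this
    have h6 : (1 : Fin (2 * k + 1)).val = 1 := by
      rw [Fin.val_one']
      exact Nat.mod_eq_of_lt (by omega)
    rw [h6] at h5
    simp at h5
  have step : ∀ i : Fin (2 * k + 1), R (st i) (if i + 1 = 0 then ex (st 0) else st (i + 1)) = true := by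
    intro i
    have ea := three (i, 0) (i, 0) (i, 1) (i, 2) (by simp) (by simp) (by simp) (at_a i)
    have eb := three (i, 1) (i, 0) (i, 3) (i + 1, 3) (by simp) (by simp) (by simp [(hone i).symm]) (at_b i)
    have ec := three (i, 2) (i, 1) (i, 4) (i + 1, if i + 1 = 0 then 5 else 4) (by simp)
      (by simp [(hone i).symm]) (by simp [(hone i).symm]) (at_c i)
    have ed := three (i, 3) (i, 2) (i, 5) (i + 1, if i + 1 = 0 then 4 else 5) (by simp)
      (by simp [(hone i).symm]) (by simp [(hone i).symm]) (at_d i)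
    have n0 := hne (i, 0)
    have n1 := hne (i, 1)
    have n2 := hne (i, 2)
    by_cases h0 : i + 1 = 0
    · rw [if_pos h0]
      rw [h0] at eb ec ed
      simp only [if_true] at ec ed
      rw [eb, ec, ed] at ea
      rw [eb] at n0
      rw [ec] at n1
      rw [ed] at n2
      simp only [R, ex, hst, Bool.and_eq_true, decide_eq_true_eq]
      exact ⟨⟨⟨⟨⟨⟨⟨⟨⟨hne _, hne _⟩, hne _⟩, hne _⟩, hne _⟩, hne _⟩, cx_ne _ _ n0⟩, cx_ne _ _ n1⟩, cx_ne _ _ n2⟩,
        cx_sum _ _ _ _ _ _ ea⟩
    · rw [if_neg h0]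
      rw [if_neg h0] at ec ed
      rw [eb, ec, ed] at ea
      rw [eb] at n0
      rw [ec] at n1
      rw [ed] at n2
      simp only [R, hst, Bool.and_eq_true, decide_eq_true_eq]
      exact ⟨⟨⟨⟨⟨⟨⟨⟨⟨hne _, hne _⟩, hne _⟩, hne _⟩, hne _⟩, hne _⟩, cx_ne _ _ n0⟩, cx_ne _ _ n1⟩, cx_ne _ _ n2⟩,
        cx_sum _ _ _ _ _ _ ea⟩
  -- induction
  have ind : ∀ m : ℕ, m < 2 * k + 1 → ∀ i : Fin (2 * k + 1), i.val = m →
      sg (st i) = sg (st 0) ∧ ph (st i) = xor (ph (st 0)) (decide (m % 2 = 1) && decide (sg (st 0) ≠ 0)) := by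
    intro m
    induction m with
    | zero =>
      intro _ i hi
      have : i = 0 := Fin.ext (by simpa using hi)
      subst this
      simp
    | succ m ih =>
      intro hm i hi
      obtain ⟨g1, g2⟩ := ih (by omega) ⟨m, by omega⟩ rfl
      have hs := step ⟨m, by omega⟩
      have hi1 : (⟨m, by omega⟩ : Fin (2 * k + 1)) + 1 = i := by
        apply Fin.ext
        rw [Fin.val_add, Fin.val_one', hi]
        simp only
        rw [Nat.mod_eq_of_lt (a := 1) (by omega), Nat.mod_eq_of_lt (by omega)]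
      rw [hi1] at hs
      have hi0 : i ≠ 0 := by
        intro h0
        rw [h0] at hi
        simp at hi
      rw [if_neg hi0] at hs
      have f1 := fact1 _ _ hs
      have f3 := fact3 _ _ hs
      refine ⟨by rw [← f3, g1], ?_⟩
      rw [f1, g2, g1]
      rcases Nat.mod_two_eq_zero_or_one m with h6 | h6
      · have h7 : (m + 1) % 2 = 1 := by omega
        rw [h6, h7]
        cases ph (st 0) <;> cases decide (sg (st 0) ≠ 0) <;> simp
      · have h7 : (m + 1) % 2 = 0 := by omega
        rw [h6, h7]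
        cases ph (st 0) <;> cases decide (sg (st 0) ≠ 0) <;> simp
  obtain ⟨g1, g2⟩ := ind (2 * k) (by omega) ⟨2 * k, by omega⟩ rfl
  have hs := step ⟨2 * k, by omega⟩
  have hl : (⟨2 * k, by omega⟩ : Fin (2 * k + 1)) + 1 = 0 := by
    apply Fin.ext
    rw [Fin.val_add, Fin.val_one']
    simp only
    rw [Nat.mod_eq_of_lt (a := 1) (by omega)]
    simp
  rw [if_pos hl] at hs
  have f1 := fact1 _ _ hs
  have hs0 := step 0
  have f2 := fact2 _ _ hs0
  rw [f2, g2, g1] at f1
  have h8 : (2 * k) % 2 = 0 := by omega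
  rw [h8] at f1
  by_cases hz : sg (st 0) = 0
  · rw [hz] at f1
    revert f1
    cases ph (st 0) <;> simp
  · revert f1
    simp only [hz]
    cases ph (st 0) <;> simp [hz]

end Pool.Agent.Lib.MP_239067_co.NTC
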