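import Pool.Agent.Lib.MP_239067_co.NTC.Defs

/-!
# FDefs: `T` copies of the flower snark `J_(2k+1)` and the values of a flow

`N = 2 k + 1` blocks; vertices `(c, i, j)`: copy `c`, block `i`, `j = 0, 1, 2, 3`: the vertices `a, b, c, d` of the block. Edges `(c, i, j)`: `j = 0, 1, 2`: from `b, c, d` to `a` in the
block `i`; `j = 3, 4, 5`: from the block `i - 1` to `b, c, d` of the block `i`, from `b, c, d` for `i ≠ 0`; for `i = 0` from `b, d, c` of the last block (twist).
-/

set_option autoImplicit false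

open Finset

namespace Pool.Agent.Lib.MP_239067_co.NTC

/-- Kirchhoff's law, general vertex and edge types -/
def KirG {V E A : Type} [Fintype E] [DecidableEq V] [AddCommGroup A] (s t : E → V) (f : E → A) : Prop :=
  ∀ v : V, ∑ e ∈ univ.filter (fun e => s e = v), f e = ∑ e ∈ univ.filter (fun e => t e = v), f e

/-- loopless and cubic -/
def CubG {V E : Type} [Fintype E] [DecidableEq V] (s t : E → V) : Prop :=
  (∀ e, s e ≠ t e) ∧ ∀ v : V, (univ.filter (fun e => s e = v)).card + (univ.filter (fun e => t e = v)).card = 3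

/-- even subgraph -/
def EvnG {V E : Type} [Fintype E] [DecidableEq V] (s t : E → V) (C : Finset E) : Prop :=
  ∀ v : V, Even (C.filter (fun e => s e = v ∨ t e = v)).card

/-- matching -/
def MtgG {V E : Type} [Fintype E] [DecidableEq V] (s t : E → V) (C : Finset E) : Prop :=
  ∀ v : V, (C.filter (fun e => s e = v ∨ t e = v)).card ≤ 1

/-- the block before the block `i` -/
def prv {k : ℕ} (i : Fin (2 * k + 1)) : Fin (2 * k + 1) := i - 1

/-- one copy: first end -/
def fs {k : ℕ} (e : Fin (2 * k + 1) × Fin 6) : Fin (2 * k + 1) × Fin 4 :=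
  match e with
  | (i, 0) => (i, 1)
  | (i, 1) => (i, 2)
  | (i, 2) => (i, 3)
  | (i, 3) => (prv i, 1)
  | (i, 4) => (prv i, if i = 0 then 3 else 2)
  | (i, 5) => (prv i, if i = 0 then 2 else 3)

/-- one copy: second end -/
def ft {k : ℕ} (e : Fin (2 * k + 1) × Fin 6) : Fin (2 * k + 1) × Fin 4 :=
  match e with
  | (i, 0) => (i, 0)
  | (i, 1) => (i, 0)
  | (i, 2) => (i, 0)
  | (i, 3) => (i, 1)
  | (i, 4) => (i, 2)
  | (i, 5) => (i, 3)

/-- strand values -/
def vx (k i : ℕ) : ℤ := if i = 0 then k else if i % 2 = 1 then 2 * k - (i / 2 : ℕ) else 3 * k + 1 - (i / 2 : ℕ)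

/-- strand values -/
def vy (k i : ℕ) : ℤ := if i = 0 then 2 * k + 1 else if i % 2 = 1 then 3 * k + 1 else k

/-- strand values -/
def vz (k i : ℕ) : ℤ := if i = 0 then 3 * k + 1 else if i % 2 = 1 then k + 1 + (i / 2 : ℕ) else 2 * k + 1 + (i / 2 : ℕ)

/-- the flow on one copy, multiplied by `k` -/
def ff {k : ℕ} (e : Fin (2 * k + 1) × Fin 6) : ℤ :=
  match e with
  | (i, 0) => vx k i - vx k (i + 1)
  | (i, 1) => vy k i - vy k (i + 1)
  | (i, 2) => vz k i - vz k (i + 1)
  | (i, 3) => vx k i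
  | (i, 4) => vy k i
  | (i, 5) => vz k i

end Pool.Agent.Lib.MP_239067_co.NTC
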