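import Pool.Agent.Lib.MP_239067_co.NTC.FDefs

/-!
# FFin (80): from general finite types to `Fin n`, `Fin m`

`a : V ≃ Fin n`, `b : E ≃ Fin m`, `s' x = a (s (b.symm x))`. All filters correspond under `b` (`Finset.card_bij`, `Finset.sum_bij`, or `Finset.map`).
-/

set_option autoImplicit false

open Finset

namespace Pool.Agent.Lib.MP_239067_co.NTC

private theorem filt {E E' : Type} [DecidableEq E'] (b : E ≃ E') (C : Finset E')
    (p : E → Prop) (q : E' → Prop) [DecidablePred p] [DecidablePred q] (h : ∀ e, p e ↔ q (b e)) :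
    ((C.map b.symm.toEmbedding).filter p).card = (C.filter q).card := by
  refine Finset.card_bij (fun e _ => b e) ?_ ?_ ?_
  · intro e he
    simp only [mem_filter, mem_map_equiv, Equiv.symm_symm] at he ⊢
    exact ⟨he.1, (h e).1 he.2⟩
  · intro e _ e' _ hee
    exact b.injective hee
  · intro x hx
    simp only [mem_filter] at hx
    refine ⟨b.symm x, ?_, b.apply_symm_apply x⟩
    simp only [mem_filter, mem_map_equiv, Equiv.symm_symm, Equiv.apply_symm_apply, h]
    exact hx

private theorem filtU {E E' : Type} [Fintype E] [Fintype E'] (b : E ≃ E')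
    (p : E → Prop) (q : E' → Prop) [DecidablePred p] [DecidablePred q] (h : ∀ e, p e ↔ q (b e)) :
    (univ.filter p).card = (univ.filter q).card := by
  refine Finset.card_bij (fun e _ => b e) ?_ ?_ ?_
  · intro e he
    simp only [mem_filter, mem_univ, true_and] at he ⊢
    exact (h e).1 he
  · intro e _ e' _ hee
    exact b.injective hee
  · intro x hx
    simp only [mem_filter, mem_univ, true_and] at hx
    refine ⟨b.symm x, ?_, b.apply_symm_apply x⟩
    simp only [mem_filter, mem_univ, true_and, h, Equiv.apply_symm_apply]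
    exact hx

private theorem sumU {E E' : Type} [Fintype E] [Fintype E'] (b : E ≃ E')
    (p : E → Prop) (q : E' → Prop) [DecidablePred p] [DecidablePred q] (h : ∀ e, p e ↔ q (b e)) (f : E → ℤ) :
    ∑ x ∈ univ.filter q, f (b.symm x) = ∑ e ∈ univ.filter p, f e := by
  refine Finset.sum_bij (fun x _ => b.symm x) ?_ ?_ ?_ ?_
  · intro x hx
    simp only [mem_filter, mem_univ, true_and] at hx ⊢
    rw [h, Equiv.apply_symm_apply]
    exact hx
  · intro x _ x' _ hxx
    exact b.symm.injective hxx
  · intro e he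
    simp only [mem_filter, mem_univ, true_and] at he
    refine ⟨b e, ?_, b.symm_apply_apply e⟩
    simp only [mem_filter, mem_univ, true_and]
    exact (h e).1 he
  · intro x _
    rfl

theorem to_fin {V E : Type} [Fintype V] [Fintype E] [DecidableEq V] [DecidableEq E] {s t : E → V} {n : ℕ} (hn : Fintype.card V = n)
    (hG : CubG s t) {f : E → ℤ} (hf : KirG s t f) {T k : ℕ} (hb : ∀ e, (k : ℤ) ≤ |f e| ∧ |f e| ≤ 3 * k + 1)
    (hc : ∀ C₁ C₂ : Finset E, EvnG s t C₁ → EvnG s t C₂ → T ≤ (univ.filter (fun e => e ∉ C₁ ∧ e ∉ C₂)).card)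
    (hm : ∀ M : Fin 3 → Finset E, (∀ i, MtgG s t (M i)) → (∀ i j, i ≠ j → Disjoint (M i) (M j)) →
      T ≤ (univ.filter (fun e => ∀ i, e ∉ M i)).card) :
    ∃ (m : ℕ) (s' t' : Fin m → Fin n), Cub s' t' ∧ (∃ g : Fin m → ℤ, (∀ e, (k : ℤ) ≤ |g e| ∧ |g e| ≤ 3 * k + 1) ∧ Kir s' t' g) ∧
      (∀ C₁ C₂ : Finset (Fin m), Evn s' t' C₁ → Evn s' t' C₂ → T ≤ (C₁ ∪ C₂)ᶜ.card) ∧
      ∀ M : Fin 3 → Finset (Fin m), (∀ i, Mtg s' t' (M i)) → (∀ i j, i ≠ j → Disjoint (M i) (M j)) →
        T ≤ (univ.filter (fun e => ∀ i, e ∉ M i)).card := by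
  let a : V ≃ Fin n := Fintype.equivFinOfCardEq hn
  let b : E ≃ Fin (Fintype.card E) := Fintype.equivFin E
  have key : ∀ (u : E → V) (v : Fin n) (e : E), u e = a.symm v ↔ a (u (b.symm (b e))) = v := by
    intro u v e
    rw [Equiv.symm_apply_apply]
    constructor
    · intro h
      rw [h, Equiv.apply_symm_apply]
    · intro h
      rw [← h, Equiv.symm_apply_apply]
  refine ⟨Fintype.card E, fun x => a (s (b.symm x)), fun x => a (t (b.symm x)), ?_, ?_, ?_, ?_⟩
  · refine ⟨fun e he => hG.1 _ (a.injective he), fun v => ?_⟩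
    rw [← hG.2 (a.symm v), filtU b (fun e => s e = a.symm v) (fun x => a (s (b.symm x)) = v) (key s v),
      filtU b (fun e => t e = a.symm v) (fun x => a (t (b.symm x)) = v) (key t v)]
  · refine ⟨fun x => f (b.symm x), fun e => hb _, fun v => ?_⟩
    rw [sumU b (fun e => s e = a.symm v) (fun x => a (s (b.symm x)) = v) (key s v) f,
      sumU b (fun e => t e = a.symm v) (fun x => a (t (b.symm x)) = v) (key t v) f]
    exact hf _
  · intro C₁ C₂ h1 h2
    have hE : ∀ C : Finset (Fin (Fintype.card E)), Evn (fun x => a (s (b.symm x))) (fun x => a (t (b.symm x))) C →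
        EvnG s t (C.map b.symm.toEmbedding) := by
      intro C hC v
      have h := hC (a v)
      rw [← filt b C (fun e => s e = v ∨ t e = v) _ (fun e => ?_)] at h
      · exact h
      · have k1 := key s (a v) e
        have k2 := key t (a v) e
        rw [Equiv.symm_apply_apply] at k1 k2
        exact or_congr k1 k2
    refine (hc _ _ (hE C₁ h1) (hE C₂ h2)).trans (le_of_eq ?_)
    rw [filtU b _ (fun x => x ∈ (C₁ ∪ C₂)ᶜ) (fun e => ?_)]
    · congr 1
      ext x
      simp
    · simp [mem_map_equiv]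
  · intro M h1 h2
    have hE : ∀ C : Finset (Fin (Fintype.card E)), Mtg (fun x => a (s (b.symm x))) (fun x => a (t (b.symm x))) C →
        MtgG s t (C.map b.symm.toEmbedding) := by
      intro C hC v
      have h := hC (a v)
      rw [← filt b C (fun e => s e = v ∨ t e = v) _ (fun e => ?_)] at h
      · exact h
      · have k1 := key s (a v) e
        have k2 := key t (a v) e
        rw [Equiv.symm_apply_apply] at k1 k2
        exact or_congr k1 k2
    refine (hm (fun i => (M i).map b.symm.toEmbedding) (fun i => hE _ (h1 i)) (fun i j hij => ?_)).trans (le_of_eq ?_)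
    · rw [Finset.disjoint_map]
      exact h2 i j hij
    · exact filtU b _ _ (fun e => by simp [mem_map_equiv])

end Pool.Agent.Lib.MP_239067_co.NTC
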