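import Pool.Agent.Lib.MP_239067_co.NTC.FDefs

/-!
# FKir (100): Kirchhoff's law, loopless and cubic

For every vertex `(i, j)` the edges leaving and entering it, explicitly (`i + 1` = next block, cyclic; `fs (i, 3) = (i - 1, 1)` and so on): `a`: none; `(i, 0), (i, 1), (i, 2)`.
`b`: `(i, 0), (i + 1, 3)`; `(i, 3)`. `c`: `(i, 1)` and `(i + 1, 4)` (or `(0, 5)` if `i` is the last block); `(i, 4)`. `d`: `(i, 2)` and `(i + 1, 5)` (or `(0, 4)`); `(i, 5)`.
At the last block `i = 2 k`: `vx k (2 k + 1) = k = vx k 0`, `vy k (2 k + 1) = 3 k + 1 = vz k 0`, `vz k (2 k + 1) = 2 k + 1 = vy k 0`. At `a` the sum of the three values is `0`: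
`vx + vy + vz = 6 k + 2` for all `i` (`i = 0`, odd, even).
-/

set_option autoImplicit false

open Finset

namespace Pool.Agent.Lib.MP_239067_co.NTC

private theorem prv_iff {k : ℕ} (i j : Fin (2 * k + 1)) : prv i = j ↔ i = j + 1 := by
  unfold prv
  exact sub_eq_iff_eq_add

private theorem out0 {k : ℕ} (i : Fin (2 * k + 1)) : univ.filter (fun e => fs (k := k) e = (i, 0)) = ∅ := by
  ext ⟨i', t⟩
  simp only [mem_filter, mem_univ, true_and, notMem_empty, iff_false]
  fin_cases t <;> simp [fs] <;> split_ifs <;> simp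

private theorem out1 {k : ℕ} (i : Fin (2 * k + 1)) :
    univ.filter (fun e => fs (k := k) e = (i, 1)) = {(i, 0), (i + 1, 3)} := by
  ext ⟨i', t⟩
  simp only [mem_filter, mem_univ, true_and, mem_insert, mem_singleton]
  fin_cases t <;> simp [fs, prv_iff] <;> split_ifs <;> simp

private theorem out2 {k : ℕ} (i : Fin (2 * k + 1)) :
    univ.filter (fun e => fs (k := k) e = (i, 2)) = {(i, 1), (i + 1, if i + 1 = 0 then 5 else 4)} := by
  ext ⟨i', t⟩
  simp only [mem_filter, mem_univ, true_and, mem_insert, mem_singleton]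
  by_cases h : i + 1 = 0
  · rw [if_pos h, h]
    fin_cases t <;> simp [fs, prv_iff, h]
  · rw [if_neg h]
    fin_cases t <;> simp [fs, prv_iff]
    · rintro rfl
      exact h
    · rintro rfl
      exact h

private theorem out3 {k : ℕ} (i : Fin (2 * k + 1)) :
    univ.filter (fun e => fs (k := k) e = (i, 3)) = {(i, 2), (i + 1, if i + 1 = 0 then 4 else 5)} := by
  ext ⟨i', t⟩
  simp only [mem_filter, mem_univ, true_and, mem_insert, mem_singleton]
  by_cases h : i + 1 = 0
  · rw [if_pos h, h]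
    fin_cases t <;> simp [fs, prv_iff, h]
  · rw [if_neg h]
    fin_cases t <;> simp [fs, prv_iff]
    · rintro rfl
      exact h
    · rintro rfl
      exact h

private theorem in0 {k : ℕ} (i : Fin (2 * k + 1)) :
    univ.filter (fun e => ft (k := k) e = (i, 0)) = {(i, 0), (i, 1), (i, 2)} := by
  ext ⟨i', t⟩
  simp only [mem_filter, mem_univ, true_and, mem_insert, mem_singleton]
  fin_cases t <;> simp [ft]

private theorem in1 {k : ℕ} (i : Fin (2 * k + 1)) :
    univ.filter (fun e => ft (k := k) e = (i, 1)) = {(i, 3)} := by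
  ext ⟨i', t⟩
  simp only [mem_filter, mem_univ, true_and, mem_singleton]
  fin_cases t <;> simp [ft]

private theorem in2 {k : ℕ} (i : Fin (2 * k + 1)) :
    univ.filter (fun e => ft (k := k) e = (i, 2)) = {(i, 4)} := by
  ext ⟨i', t⟩
  simp only [mem_filter, mem_univ, true_and, mem_singleton]
  fin_cases t <;> simp [ft]

private theorem in3 {k : ℕ} (i : Fin (2 * k + 1)) :
    univ.filter (fun e => ft (k := k) e = (i, 3)) = {(i, 5)} := by
  ext ⟨i', t⟩
  simp only [mem_filter, mem_univ, true_and, mem_singleton]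
  fin_cases t <;> simp [ft]

private theorem prv_ne {k : ℕ} (hk : 1 ≤ k) (i : Fin (2 * k + 1)) : prv i ≠ i := by
  intro h
  rw [prv_iff] at h
  have h1 : (1 : Fin (2 * k + 1)) = 0 := by
    have := left_eq_add.1 h
    exact this
  have h2 := congrArg Fin.val h1
  rw [Fin.val_zero, Fin.val_one'] at h2
  rw [Nat.mod_eq_of_lt (by omega)] at h2
  omega

theorem fcub {k : ℕ} (hk : 1 ≤ k) : CubG (fs (k := k)) (ft (k := k)) := by
  constructor
  · rintro ⟨i, t⟩
    have h := prv_ne hk i
    fin_cases t <;> simp [fs, ft, h]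
  · rintro ⟨i, j⟩
    fin_cases j
    · show (univ.filter (fun e => fs (k := k) e = (i, 0))).card + (univ.filter (fun e => ft (k := k) e = (i, 0))).card = 3
      rw [out0, in0, card_empty, card_eq_three.2 ⟨(i, 0), (i, 1), (i, 2), by simp, by simp, by simp, rfl⟩]
    · show (univ.filter (fun e => fs (k := k) e = (i, 1))).card + (univ.filter (fun e => ft (k := k) e = (i, 1))).card = 3
      rw [out1, in1, card_singleton, card_pair (by simp)]
    · show (univ.filter (fun e => fs (k := k) e = (i, 2))).card + (univ.filter (fun e => ft (k := k) e = (i, 2))).card = 3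
      rw [out2, in2, card_singleton, card_pair (by split_ifs <;> simp)]
    · show (univ.filter (fun e => fs (k := k) e = (i, 3))).card + (univ.filter (fun e => ft (k := k) e = (i, 3))).card = 3
      rw [out3, in3, card_singleton, card_pair (by split_ifs <;> simp)]

private theorem vsum (k i : ℕ) : vx k i + vy k i + vz k i = 6 * k + 2 := by
  unfold vx vy vz
  split_ifs <;> ring

private theorem nxt {k : ℕ} (i : Fin (2 * k + 1)) :
    (i + 1 ≠ 0 ∧ ((i + 1 : Fin (2 * k + 1)) : ℕ) = (i : ℕ) + 1) ∨ (i + 1 = 0 ∧ (i : ℕ) = 2 * k) := by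
  by_cases h : (i : ℕ) = 2 * k
  · right
    refine ⟨?_, h⟩
    have : i = Fin.last (2 * k) := Fin.ext h
    rw [this]
    exact Fin.last_add_one _
  · left
    have h1 : (i : ℕ) < 2 * k := by omega
    have h2 : ((i + 1 : Fin (2 * k + 1)) : ℕ) = (i : ℕ) + 1 :=
      Fin.val_add_one_of_lt (by rw [Fin.lt_def]; exact h1)
    refine ⟨fun h3 => ?_, h2⟩
    rw [h3, Fin.val_zero] at h2
    omega

theorem fkir {k : ℕ} (hk : 1 ≤ k) : KirG (fs (k := k)) (ft (k := k)) (ff (k := k)) := by
  rintro ⟨i, j⟩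
  have hd : (2 * k + 1) / 2 = k := by omega
  have hm : (2 * k + 1) % 2 = 1 := by omega
  have hx : vx k (2 * k + 1) = k := by
    unfold vx
    rw [if_neg (by omega), if_pos hm, hd]
    ring
  have hy : vy k (2 * k + 1) = 3 * k + 1 := by
    unfold vy
    rw [if_neg (by omega), if_pos hm]
  have hz : vz k (2 * k + 1) = 2 * k + 1 := by
    unfold vz
    rw [if_neg (by omega), if_pos hm, hd]
    ring
  have hx0 : vx k 0 = k := by unfold vx; rw [if_pos rfl]
  have hy0 : vy k 0 = 2 * k + 1 := by unfold vy; rw [if_pos rfl]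
  have hz0 : vz k 0 = 3 * k + 1 := by unfold vz; rw [if_pos rfl]
  fin_cases j
  · show ∑ e ∈ univ.filter (fun e => fs (k := k) e = (i, 0)), ff e = ∑ e ∈ univ.filter (fun e => ft (k := k) e = (i, 0)), ff e
    rw [out0, in0, sum_empty, sum_insert (by simp), sum_insert (by simp), sum_singleton]
    have h1 := vsum k i
    have h2 := vsum k (i + 1)
    show 0 = vx k i - vx k (i + 1) + (vy k i - vy k (i + 1) + (vz k i - vz k (i + 1)))
    linarith
  · show ∑ e ∈ univ.filter (fun e => fs (k := k) e = (i, 1)), ff e = ∑ e ∈ univ.filter (fun e => ft (k := k) e = (i, 1)), ff e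
    rw [out1, in1, sum_singleton, sum_insert (by simp), sum_singleton]
    show vx k i - vx k (i + 1) + vx k ((i + 1 : Fin (2 * k + 1)) : ℕ) = vx k i
    rcases nxt i with ⟨-, h2⟩ | ⟨h1, h2⟩
    · rw [h2]; ring
    · rw [h1, h2, Fin.val_zero, hx, hx0]; ring
  · show ∑ e ∈ univ.filter (fun e => fs (k := k) e = (i, 2)), ff e = ∑ e ∈ univ.filter (fun e => ft (k := k) e = (i, 2)), ff e
    rw [out2, in2, sum_singleton, sum_insert (by split_ifs <;> simp), sum_singleton]
    rcases nxt i with ⟨h1, h2⟩ | ⟨h1, h2⟩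
    · rw [if_neg h1]
      show vy k i - vy k (i + 1) + vy k ((i + 1 : Fin (2 * k + 1)) : ℕ) = vy k i
      rw [h2]; ring
    · rw [if_pos h1, h1]
      show vy k i - vy k (i + 1) + vz k ((0 : Fin (2 * k + 1)) : ℕ) = vy k i
      rw [h2, Fin.val_zero, hy, hz0]; ring
  · show ∑ e ∈ univ.filter (fun e => fs (k := k) e = (i, 3)), ff e = ∑ e ∈ univ.filter (fun e => ft (k := k) e = (i, 3)), ff e
    rw [out3, in3, sum_singleton, sum_insert (by split_ifs <;> simp), sum_singleton]
    rcases nxt i with ⟨h1, h2⟩ | ⟨h1, h2⟩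
    · rw [if_neg h1]
      show vz k i - vz k (i + 1) + vz k ((i + 1 : Fin (2 * k + 1)) : ℕ) = vz k i
      rw [h2]; ring
    · rw [if_pos h1, h1]
      show vz k i - vz k (i + 1) + vy k ((0 : Fin (2 * k + 1)) : ℕ) = vz k i
      rw [h2, Fin.val_zero, hz, hy0]; ring

end Pool.Agent.Lib.MP_239067_co.NTC
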