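import Pool.Agent.Lib.MP_239067_co.NTC.FDefs

/-!
# FMat (60): three disjoint matchings which cover a cubic graph give two even subgraphs

`C₁ = M 0 ∪ M 1`, `C₂ = M 1 ∪ M 2`. At every vertex there are three edges (loopless, cubic), each matching has at most one of them, they cover, so exactly one each; `C₁`, `C₂`
have two.
-/

set_option autoImplicit false

open Finset

namespace Pool.Agent.Lib.MP_239067_co.NTC

private theorem one_each {V E : Type} [Fintype E] [DecidableEq V] [DecidableEq E] {s t : E → V} (hG : CubG s t)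
    (M : Fin 3 → Finset E) (h1 : ∀ i, MtgG s t (M i)) (h3 : ∀ e, ∃ i, e ∈ M i) (v : V) (i : Fin 3) :
    ((M i).filter (fun e => s e = v ∨ t e = v)).card = 1 := by
  have hdisj : Disjoint (univ.filter (fun e => s e = v)) (univ.filter (fun e => t e = v)) :=
    Finset.disjoint_left.2 fun e he he' => hG.1 e ((mem_filter.1 he).2.trans (mem_filter.1 he').2.symm)
  have hT : (univ.filter (fun e => s e = v ∨ t e = v)).card = 3 := by
    rw [filter_or, card_union_of_disjoint hdisj]
    exact hG.2 v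
  have hU : univ.filter (fun e => s e = v ∨ t e = v) ⊆ ((M 0).filter (fun e => s e = v ∨ t e = v) ∪
      (M 1).filter (fun e => s e = v ∨ t e = v)) ∪ (M 2).filter (fun e => s e = v ∨ t e = v) := by
    intro e he
    have he' := (mem_filter.1 he).2
    obtain ⟨j, hj⟩ := h3 e
    rw [mem_union, mem_union, mem_filter, mem_filter, mem_filter]
    fin_cases j
    · exact Or.inl (Or.inl ⟨hj, he'⟩)
    · exact Or.inl (Or.inr ⟨hj, he'⟩)
    · exact Or.inr ⟨hj, he'⟩
  have h4 := card_le_card hU
  have h5 := card_union_le ((M 0).filter (fun e => s e = v ∨ t e = v) ∪ (M 1).filter (fun e => s e = v ∨ t e = v))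
    ((M 2).filter (fun e => s e = v ∨ t e = v))
  have h6 := card_union_le ((M 0).filter (fun e => s e = v ∨ t e = v)) ((M 1).filter (fun e => s e = v ∨ t e = v))
  have a0 := h1 0 v
  have a1 := h1 1 v
  have a2 := h1 2 v
  fin_cases i
  · show ((M 0).filter (fun e => s e = v ∨ t e = v)).card = 1
    omega
  · show ((M 1).filter (fun e => s e = v ∨ t e = v)).card = 1
    omega
  · show ((M 2).filter (fun e => s e = v ∨ t e = v)).card = 1
    omega

private theorem even_union {V E : Type} [Fintype E] [DecidableEq V] [DecidableEq E] {s t : E → V} (hG : CubG s t)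
    (M : Fin 3 → Finset E) (h1 : ∀ i, MtgG s t (M i)) (h2 : ∀ i j, i ≠ j → Disjoint (M i) (M j))
    (h3 : ∀ e, ∃ i, e ∈ M i) {i j : Fin 3} (hij : i ≠ j) : EvnG s t (M i ∪ M j) := by
  intro v
  have hd : Disjoint ((M i).filter (fun e => s e = v ∨ t e = v)) ((M j).filter (fun e => s e = v ∨ t e = v)) :=
    disjoint_filter_filter (h2 i j hij)
  rw [filter_union, card_union_of_disjoint hd, one_each hG M h1 h3 v i, one_each hG M h1 h3 v j]
  exact even_two

theorem evn_of_mtg {V E : Type} [Fintype E] [DecidableEq V] [DecidableEq E] {s t : E → V} (hG : CubG s t) (M : Fin 3 → Finset E)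
    (h1 : ∀ i, MtgG s t (M i)) (h2 : ∀ i j, i ≠ j → Disjoint (M i) (M j)) (h3 : ∀ e, ∃ i, e ∈ M i) :
    ∃ C₁ C₂ : Finset E, EvnG s t C₁ ∧ EvnG s t C₂ ∧ ∀ e, e ∈ C₁ ∨ e ∈ C₂ := by
  refine ⟨M 0 ∪ M 1, M 1 ∪ M 2, even_union hG M h1 h2 h3 (by decide), even_union hG M h1 h2 h3 (by decide), fun e => ?_⟩
  obtain ⟨j, hj⟩ := h3 e
  rw [mem_union, mem_union]
  fin_cases j
  · exact Or.inl (Or.inl hj)
  · exact Or.inl (Or.inr hj)
  · exact Or.inr (Or.inr hj)

end Pool.Agent.Lib.MP_239067_co.NTC
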