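import Pool.Agent.Lib.MP_239067_co.NTC.FNum
import Pool.Agent.Lib.MP_239067_co.NTC.FKir
import Pool.Agent.Lib.MP_239067_co.NTC.FCore
import Pool.Agent.Lib.MP_239067_co.NTC.FMat
import Pool.Agent.Lib.MP_239067_co.NTC.FCop
import Pool.Agent.Lib.MP_239067_co.NTC.FFin

/-!
# Copies of flower snarks: the order of the upper bounds is right
-/

set_option autoImplicit false

open Finset

namespace Pool.Agent.Lib.MP_239067_co.NTC

theorem lower (k T : ℕ) (hk : 1 ≤ k) : ∃ (m : ℕ) (s t : Fin m → Fin ((8 * k + 4) * T)), Cub s t ∧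
    (∃ f : Fin m → ℝ, (∀ e, 1 ≤ |f e| ∧ |f e| ≤ (4 + 1 / (k : ℝ)) - 1) ∧ Kir s t f) ∧
    (∀ C₁ C₂ : Finset (Fin m), Evn s t C₁ → Evn s t C₂ → T ≤ (C₁ ∪ C₂)ᶜ.card) ∧
    ∀ M : Fin 3 → Finset (Fin m), (∀ i, Mtg s t (M i)) → (∀ i j, i ≠ j → Disjoint (M i) (M j)) →
      T ≤ (univ.filter (fun e => ∀ i, e ∉ M i)).card := by
  have hcore : ∀ C₁ C₂ : Finset (Fin (2 * k + 1) × Fin 6), EvnG (fs (k := k)) (ft (k := k)) C₁ →
      EvnG (fs (k := k)) (ft (k := k)) C₂ → (∀ e, e ∈ C₁ ∨ e ∈ C₂) → False := fun C₁ C₂ a b c => fcore hk C₁ C₂ a b c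
  obtain ⟨m, s, t, h1, ⟨g, hg1, hg2⟩, h2, h3⟩ := to_fin (V := Fin T × (Fin (2 * k + 1) × Fin 4))
    (n := (8 * k + 4) * T) (by simp only [Fintype.card_prod, Fintype.card_fin]; ring) (cop_cub T (fcub hk)) (cop_kir T (fkir hk))
    (T := T) (k := k) (fun e => ff_bd hk e.2) (cop_evn T hcore)
    (cop_mtg T (fun M a b c => by
      obtain ⟨C₁, C₂, d1, d2, d3⟩ := evn_of_mtg (fcub hk) M a b c
      exact hcore C₁ C₂ d1 d2 d3))
  have hk0 : (0 : ℝ) < k := by exact_mod_cast hk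
  refine ⟨m, s, t, h1, ⟨fun e => (g e : ℝ) / k, fun e => ?_, fun v => ?_⟩, h2, h3⟩
  · obtain ⟨a, b⟩ := hg1 e
    have a' : (k : ℝ) ≤ |(g e : ℝ)| := by exact_mod_cast a
    have b' : |(g e : ℝ)| ≤ 3 * k + 1 := by exact_mod_cast b
    rw [abs_div, abs_of_pos hk0, le_div_iff₀ hk0, div_le_iff₀ hk0, sub_mul, add_mul, one_div, inv_mul_cancel₀ hk0.ne']
    constructor
    · linarith
    · linarith
  · have := hg2 v
    rw [← sum_div, ← sum_div]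
    congr 1
    exact_mod_cast this

end Pool.Agent.Lib.MP_239067_co.NTC
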