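import Pool.Agent.Lib.MP_239067_co.NTC.FDefs

/-!
# FNum (60): the values are between `k` and `3 k + 1`

Cases `i = 0`, `i` odd, `i` even (`i = 2 j`, `i = 2 j + 1`, `j ≤ k`), with `i / 2 = j`; the differences are `±(k, k, 2k)`, `±(k + 1, 2k + 1, k)`, `±(k, 2k + 1, k + 1)`.
-/

set_option autoImplicit false

open Finset

namespace Pool.Agent.Lib.MP_239067_co.NTC

private theorem bd_of {k : ℕ} {v w : ℤ} (h : v = w) (h1 : ((k : ℤ) ≤ w ∨ (k : ℤ) ≤ -w) ∧
    -(3 * (k : ℤ) + 1) ≤ w ∧ w ≤ 3 * (k : ℤ) + 1) : (k : ℤ) ≤ |v| ∧ |v| ≤ 3 * k + 1 := by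
  rw [h, le_abs, abs_le]
  exact h1

theorem ff_bd {k : ℕ} (hk : 1 ≤ k) (e : Fin (2 * k + 1) × Fin 6) : (k : ℤ) ≤ |ff e| ∧ |ff e| ≤ 3 * k + 1 := by
  obtain ⟨⟨n, hn⟩, t⟩ := e
  match t with
  | 0 =>
    refine bd_of (show ff (⟨n, hn⟩, 0) = vx k n - vx k (n + 1) from rfl) ?_
    unfold vx
    split_ifs <;> first | omega | contradiction
  | 1 =>
    refine bd_of (show ff (⟨n, hn⟩, 1) = vy k n - vy k (n + 1) from rfl) ?_
    unfold vy
    split_ifs <;> first | omega | contradiction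
  | 2 =>
    refine bd_of (show ff (⟨n, hn⟩, 2) = vz k n - vz k (n + 1) from rfl) ?_
    unfold vz
    split_ifs <;> first | omega | contradiction
  | 3 =>
    refine bd_of (show ff (⟨n, hn⟩, 3) = vx k n from rfl) ?_
    unfold vx
    split_ifs <;> omega
  | 4 =>
    refine bd_of (show ff (⟨n, hn⟩, 4) = vy k n from rfl) ?_
    unfold vy
    split_ifs <;> omega
  | 5 =>
    refine bd_of (show ff (⟨n, hn⟩, 5) = vz k n from rfl) ?_
    unfold vz
    split_ifs <;> omega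

end Pool.Agent.Lib.MP_239067_co.NTC
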