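import Pool.Agent.Lib.MP_239067_co.NTC.KStep

/-!
# KFour (130): four matchings which cover all edges

PROOF IN WORDS. Strong induction on the number of uncovered edges with `step`: there are three disjoint matchings `M` with at most `k` uncovered edges, the set `X` of which is a
matching. `N i = M i` (`i < 3`), `N 3 = X ∪ {e ∈ M 0 which meets no edge of X}`. Every matching has at most `n / 2` edges (double count) and `2 * m = 3 * n`, so
`2 * card (M i) ≥ 3 * n - 2 * k - 2 * n`; `card (N 3) ≥ card X + card (M 0) - 2 * card X`.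
-/

set_option autoImplicit false

open Finset

namespace Pool.Agent.Lib.MP_239067_co.NTC

variable {n m : ℕ}

private theorem reduce {s t : Fin m → Fin n} (hG : Cub s t) : ∀ (k : ℕ) (M : Fin 3 → Finset (Fin m)),
    (∀ i, Mtg s t (M i)) → (∀ i j, i ≠ j → Disjoint (M i) (M j)) →
    (univ.filter (fun e => ∀ i, e ∉ M i)).card ≤ k →
    ∃ M' : Fin 3 → Finset (Fin m), (∀ i, Mtg s t (M' i)) ∧ (∀ i j, i ≠ j → Disjoint (M' i) (M' j)) ∧
      (univ.filter (fun e => ∀ i, e ∉ M' i)).card ≤ k ∧ Mtg s t (univ.filter (fun e => ∀ i, e ∉ M' i)) := by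
  intro k
  induction k with
  | zero =>
    intro M h1 h2 hk
    refine ⟨M, h1, h2, hk, ?_⟩
    have h3 : (univ.filter (fun e => ∀ i, e ∉ M i)) = ∅ := card_eq_zero.mp (by omega)
    rw [h3]
    intro v
    simp
  | succ k ih =>
    intro M h1 h2 hk
    by_cases hX : Mtg s t (univ.filter (fun e => ∀ i, e ∉ M i))
    · exact ⟨M, h1, h2, hk, hX⟩
    · obtain ⟨M', a1, a2, a3⟩ := step hG M h1 h2 hX
      obtain ⟨M'', b1, b2, b3, b4⟩ := ih M' a1 a2 (by omega)
      exact ⟨M'', b1, b2, by omega, b4⟩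

private theorem deg {s t : Fin m → Fin n} (hs : ∀ e, s e ≠ t e) (B : Finset (Fin m)) :
    ∑ v, (B.filter (fun e => s e = v ∨ t e = v)).card = 2 * B.card := by
  simp only [card_filter]
  rw [sum_comm, mul_comm, ← smul_eq_mul, ← sum_const]
  refine sum_congr rfl fun e _ => ?_
  rw [← card_filter]
  have h : univ.filter (fun v => s e = v ∨ t e = v) = {s e, t e} := by
    ext v
    simp [eq_comm]
  rw [h, card_pair (hs e)]

private theorem mtg_le {s t : Fin m → Fin n} (hs : ∀ e, s e ≠ t e) {B : Finset (Fin m)} (hB : Mtg s t B) :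
    2 * B.card ≤ n := by
  rw [← deg hs B]
  refine (sum_le_sum fun v _ => hB v).trans ?_
  simp

private theorem edges {s t : Fin m → Fin n} (hG : Cub s t) : 2 * m = 3 * n := by
  have h1 : ∑ v, ((univ.filter (fun e => s e = v)).card + (univ.filter (fun e => t e = v)).card) = ∑ _v : Fin n, 3 :=
    sum_congr rfl fun v _ => hG.2 v
  rw [sum_add_distrib] at h1
  have h2 : (univ : Finset (Fin m)).card = ∑ v : Fin n, (univ.filter (fun e => s e = v)).card :=
    card_eq_sum_card_fiberwise fun _ _ => mem_coe.mpr (mem_univ _)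
  have h3 : (univ : Finset (Fin m)).card = ∑ v : Fin n, (univ.filter (fun e => t e = v)).card :=
    card_eq_sum_card_fiberwise fun _ _ => mem_coe.mpr (mem_univ _)
  rw [← h2, ← h3] at h1
  simp only [card_univ, Fintype.card_fin, sum_const, smul_eq_mul] at h1
  omega

private theorem uniq {s t : Fin m → Fin n} {B : Finset (Fin m)} (hB : Mtg s t B) {e e' : Fin m} {v : Fin n}
    (he : e ∈ B) (he' : e' ∈ B) (h : s e = v ∨ t e = v) (h' : s e' = v ∨ t e' = v) : e = e' :=
  card_le_one.mp (hB v) e (mem_filter.mpr ⟨he, h⟩) e' (mem_filter.mpr ⟨he', h'⟩)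

theorem four {s t : Fin m → Fin n} (hG : Cub s t) (M : Fin 3 → Finset (Fin m)) (h1 : ∀ i, Mtg s t (M i))
    (h2 : ∀ i j, i ≠ j → Disjoint (M i) (M j)) {k : ℕ} (hk : (univ.filter (fun e => ∀ i, e ∉ M i)).card ≤ k) :
    ∃ N : Fin 4 → Finset (Fin m), (∀ i, Mtg s t (N i)) ∧ (∀ e, ∃ i, e ∈ N i) ∧ ∀ i, n ≤ 2 * (N i).card + 4 * k := by
  classical
  obtain ⟨L, a1, a2, a3, a4⟩ := reduce hG k M h1 h2 hk
  set X : Finset (Fin m) := univ.filter (fun e => ∀ i, e ∉ L i) with hX
  have hXL : ∀ e ∈ X, ∀ i, e ∉ L i := fun e he => (mem_filter.mp he).2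
  set T : Finset (Fin m) := (L 0).filter (fun e => ∀ x ∈ X, ∀ v, (s e = v ∨ t e = v) → ¬ (s x = v ∨ t x = v)) with hT
  have hcov : (univ : Finset (Fin m)) ⊆ X ∪ (L 0 ∪ (L 1 ∪ L 2)) := by
    intro e _
    by_cases h0 : e ∈ L 0
    · simp [h0]
    · by_cases h1 : e ∈ L 1
      · simp [h1]
      · by_cases h2 : e ∈ L 2
        · simp [h2]
        · refine mem_union_left _ (mem_filter.mpr ⟨mem_univ _, fun i => ?_⟩)
          fin_cases i
          · exact h0
          · exact h1
          · exact h2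
  have hm : m ≤ X.card + ((L 0).card + ((L 1).card + (L 2).card)) := by
    have e1 := card_le_card hcov
    have e2 := card_union_le X (L 0 ∪ (L 1 ∪ L 2))
    have e3 := card_union_le (L 0) (L 1 ∪ L 2)
    have e4 := card_union_le (L 1) (L 2)
    rw [card_univ, Fintype.card_fin] at e1
    omega
  have hmn := edges hG
  have g0 := mtg_le hG.1 (a1 0)
  have g1 := mtg_le hG.1 (a1 1)
  have g2 := mtg_le hG.1 (a1 2)
  have hbad : L 0 \ T ⊆ X.biUnion fun x => (L 0).filter (fun e => s e = s x ∨ t e = s x) ∪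
      (L 0).filter (fun e => s e = t x ∨ t e = t x) := by
    intro e he
    rw [mem_sdiff] at he
    obtain ⟨he0, he1⟩ := he
    have h3 : ¬ ∀ x ∈ X, ∀ v, (s e = v ∨ t e = v) → ¬ (s x = v ∨ t x = v) := fun h =>
      he1 (mem_filter.mpr ⟨he0, h⟩)
    push Not at h3
    obtain ⟨x, hx, v, hv, hv'⟩ := h3
    refine mem_biUnion.mpr ⟨x, hx, ?_⟩
    rcases hv' with hv' | hv'
    · refine mem_union_left _ (mem_filter.mpr ⟨he0, ?_⟩)
      rw [hv']
      exact hv
    · refine mem_union_right _ (mem_filter.mpr ⟨he0, ?_⟩)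
      rw [hv']
      exact hv
  have hbad' : (L 0 \ T).card ≤ X.card * 2 := by
    refine (card_le_card hbad).trans ?_
    refine card_biUnion_le_card_mul _ _ 2 fun x _ => ?_
    have e1 := card_union_le ((L 0).filter (fun e => s e = s x ∨ t e = s x))
      ((L 0).filter (fun e => s e = t x ∨ t e = t x))
    have e2 := a1 0 (s x)
    have e3 := a1 0 (t x)
    omega
  have hTL : T ⊆ L 0 := filter_subset _ _
  have hTc : (L 0 \ T).card + T.card = (L 0).card := card_sdiff_add_card_eq_card hTL
  have hdis : Disjoint X T := by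
    rw [disjoint_left]
    intro e he he'
    exact hXL e he 0 (hTL he')
  have hU : (X ∪ T).card = X.card + T.card := card_union_of_disjoint hdis
  have hMX : Mtg s t (X ∪ T) := by
    intro v
    rw [card_le_one]
    intro e he e' he'
    rw [mem_filter, mem_union] at he he'
    obtain ⟨he | he, hv⟩ := he
    · obtain ⟨he' | he', hv'⟩ := he'
      · exact uniq a4 he he' hv hv'
      · exact absurd hv ((mem_filter.mp he').2 e he v hv')
    · obtain ⟨he' | he', hv'⟩ := he'
      · exact absurd hv' ((mem_filter.mp he).2 e' he' v hv)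
      · exact uniq (a1 0) (hTL he) (hTL he') hv hv'
  refine ⟨![L 0, L 1, L 2, X ∪ T], ?_, ?_, ?_⟩
  · intro i
    fin_cases i
    · exact a1 0
    · exact a1 1
    · exact a1 2
    · exact hMX
  · intro e
    have he := hcov (mem_univ e)
    simp only [mem_union] at he
    rcases he with he | he | he | he
    · exact ⟨3, mem_union_left _ he⟩
    · exact ⟨0, he⟩
    · exact ⟨1, he⟩
    · exact ⟨2, he⟩
  · intro i
    fin_cases i
    · change n ≤ 2 * (L 0).card + 4 * k
      omega
    · change n ≤ 2 * (L 1).card + 4 * k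
      omega
    · change n ≤ 2 * (L 2).card + 4 * k
      omega
    · change n ≤ 2 * (X ∪ T).card + 4 * k
      omega

end Pool.Agent.Lib.MP_239067_co.NTC
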