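import Pool.Agent.Lib.MP_239067_co.NTC.Loc

/-!
# KFree (60): free colours at a vertex (for KStep)

One uncovered edge at `v`: one of the three colours is free at `v`; two uncovered edges: two of them. (`loc`: three edges at `v`; a colour which is not free has an edge at `v`,
and different colours have different edges.)
-/

set_option autoImplicit false

open Finset

namespace Pool.Agent.Lib.MP_239067_co.NTC

variable {n m : ℕ}

theorem no_four {s t : Fin m → Fin n} (hG : Cub s t) (v : Fin n) (p q r u : Fin m) (hpq : p ≠ q) (hpr : p ≠ r)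
    (hpu : p ≠ u) (hqr : q ≠ r) (hqu : q ≠ u) (hru : r ≠ u) (hp : s p = v ∨ t p = v) (hq : s q = v ∨ t q = v)
    (hr : s r = v ∨ t r = v) (hu : s u = v ∨ t u = v) : False := by
  obtain ⟨a, b, c, _, _, _, h, _⟩ := loc hG v
  have hsub : ({p, q, r, u} : Finset (Fin m)) ⊆ {a, b, c} := by
    intro e he
    simp only [mem_insert, mem_singleton] at he ⊢
    rcases he with rfl | rfl | rfl | rfl
    exacts [(h _).1 hp, (h _).1 hq, (h _).1 hr, (h _).1 hu]
  have h1 : p ∉ ({q, r, u} : Finset (Fin m)) := by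
    simp only [mem_insert, mem_singleton, not_or]
    exact ⟨hpq, hpr, hpu⟩
  have h2 : q ∉ ({r, u} : Finset (Fin m)) := by
    simp only [mem_insert, mem_singleton, not_or]
    exact ⟨hqr, hqu⟩
  have h3 : r ∉ ({u} : Finset (Fin m)) := by
    simp only [mem_singleton]
    exact hru
  have h4 : ({p, q, r, u} : Finset (Fin m)).card = 4 := by
    rw [card_insert_of_notMem h1, card_insert_of_notMem h2, card_insert_of_notMem h3, card_singleton]
  have h5 := card_le_card hsub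
  have h6 : ({a, b, c} : Finset (Fin m)).card ≤ 3 := card_le_three
  omega

theorem free_one {s t : Fin m → Fin n} (hG : Cub s t) (M : Fin 3 → Finset (Fin m))
    (h2 : ∀ i j, i ≠ j → Disjoint (M i) (M j)) (v : Fin n) (x : Fin m) (hx : ∀ i, x ∉ M i) (hv : s x = v ∨ t x = v) :
    ∃ i, ∀ e ∈ M i, ¬ (s e = v ∨ t e = v) := by
  by_contra h
  have h' : ∀ i, ∃ e ∈ M i, s e = v ∨ t e = v := fun i => by
    by_contra hc
    exact h ⟨i, fun e he hev => hc ⟨e, he, hev⟩⟩
  choose e he hev using h'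
  have hne : ∀ i j, i ≠ j → e i ≠ e j := fun i j hij hc =>
    Finset.disjoint_left.1 (h2 i j hij) (he i) (hc ▸ he j)
  have hxe : ∀ i, x ≠ e i := fun i hc => hx i (hc ▸ he i)
  exact no_four hG v x (e 0) (e 1) (e 2) (hxe 0) (hxe 1) (hxe 2) (hne 0 1 (by decide)) (hne 0 2 (by decide))
    (hne 1 2 (by decide)) hv (hev 0) (hev 1) (hev 2)

theorem free_two {s t : Fin m → Fin n} (hG : Cub s t) (M : Fin 3 → Finset (Fin m))
    (h2 : ∀ i j, i ≠ j → Disjoint (M i) (M j)) (v : Fin n) (x y : Fin m) (hxy : x ≠ y) (hx : ∀ i, x ∉ M i) (hy : ∀ i, y ∉ M i)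
    (hv : s x = v ∨ t x = v) (hv' : s y = v ∨ t y = v) :
    ∃ i j, i ≠ j ∧ (∀ e ∈ M i, ¬ (s e = v ∨ t e = v)) ∧ ∀ e ∈ M j, ¬ (s e = v ∨ t e = v) := by
  obtain ⟨i, hi⟩ := free_one hG M h2 v x hx hv
  by_contra h
  have h' : ∀ j, i ≠ j → ∃ e ∈ M j, s e = v ∨ t e = v := fun j hij => by
    by_contra hc
    exact h ⟨i, j, hij, hi, fun e he hev => hc ⟨e, he, hev⟩⟩
  have h3 : ∀ i : Fin 3, ∃ j k : Fin 3, i ≠ j ∧ i ≠ k ∧ j ≠ k := by decide
  obtain ⟨j, k, hij, hik, hjk⟩ := h3 i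
  obtain ⟨e, he, hev⟩ := h' j hij
  obtain ⟨f, hf, hfv⟩ := h' k hik
  exact no_four hG v x y e f hxy (fun hc => hx j (hc ▸ he)) (fun hc => hx k (hc ▸ hf)) (fun hc => hy j (hc ▸ he))
    (fun hc => hy k (hc ▸ hf)) (fun hc => Finset.disjoint_left.1 (h2 j k hjk) he (hc ▸ hf)) hv hv' hev hfv

end Pool.Agent.Lib.MP_239067_co.NTC
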