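import Pool.Agent.Lib.MP_239067_co.NTC.Loc

/-!
# Mat (120): three matchings

Colour of `e ∉ B`: `0` if only in `C₁`, `1` if only in `C₂`, `2` if in both. At a vertex without edge of `B` the three edges have different colours (two of them are in `C₁`,
two in `C₂`, none in neither); at a vertex `v` of `b ∈ B` the two other edges have the same colour. For such `v` let `x v` be one of the two; `X` = all `x (s b)`, `x (t b)`, `b ∈ B`,
`card X ≤ 2 card B`. `M i` = the edges `e ∉ B ∪ X` of colour `i` and the `b ∈ B` with `κ b = i`, `κ b` a colour different from the colours of the other edges at `s b` and at `t b`.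
-/

set_option autoImplicit false

open Finset

namespace Pool.Agent.Lib.MP_239067_co.NTC

variable {n m : ℕ}

private def cc (p q : Bool) : Fin 3 := if p then (if q then 2 else 0) else 1

private theorem key : ∀ a1 a2 b1 b2 c1 c2 : Bool,
    (a1.toNat + (b1.toNat + c1.toNat)) % 2 = 0 → (a2.toNat + (b2.toNat + c2.toNat)) % 2 = 0 →
    ((!(a1 || a2)).toNat + ((!(b1 || b2)).toNat + (!(c1 || c2)).toNat) ≤ 1) →
    ((a1 || a2) = true ∧ (b1 || b2) = true ∧ (c1 || c2) = true ∧ cc a1 a2 ≠ cc b1 b2 ∧ cc a1 a2 ≠ cc c1 c2 ∧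
      cc b1 b2 ≠ cc c1 c2) ∨
    ((a1 || a2) = false ∧ cc b1 b2 = cc c1 c2) ∨ ((b1 || b2) = false ∧ cc a1 a2 = cc c1 c2) ∨
    ((c1 || c2) = false ∧ cc a1 a2 = cc b1 b2) := by
  intro a1 a2 b1 b2 c1 c2
  cases a1 <;> cases a2 <;> cases b1 <;> cases b2 <;> cases c1 <;> cases c2 <;> decide

private theorem card3 (C : Finset (Fin m)) {P : Fin m → Prop} [DecidablePred P] {a b c : Fin m} (hab : a ≠ b)
    (hac : a ≠ c) (hbc : b ≠ c) (h : ∀ e, P e ↔ (e = a ∨ e = b ∨ e = c)) :
    (C.filter P).card = (decide (a ∈ C)).toNat + ((decide (b ∈ C)).toNat + (decide (c ∈ C)).toNat) := by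
  have h1 : C.filter P = ({a, b, c} : Finset (Fin m)).filter (fun e => e ∈ C) := by
    ext e
    simp only [mem_filter, mem_insert, mem_singleton, h e]
    tauto
  rw [h1, card_filter, sum_insert (by simp [hab, hac]), sum_insert (by simp [hbc]), sum_singleton]
  by_cases h2 : a ∈ C <;> by_cases h3 : b ∈ C <;> by_cases h4 : c ∈ C <;> simp [h2, h3, h4]

private def col (C₁ C₂ : Finset (Fin m)) (e : Fin m) : Fin 3 := cc (decide (e ∈ C₁)) (decide (e ∈ C₂))

private theorem vert {s t : Fin m → Fin n} (hG : Cub s t) {B C₁ C₂ : Finset (Fin m)} (hB : Mtg s t B)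
    (h1 : Evn s t C₁) (h2 : Evn s t C₂) (h : C₁ ∪ C₂ = Bᶜ) (v : Fin n) :
    ∃ (x : Fin m) (k : Fin 3),
      (∀ e e', (s e = v ∨ t e = v) → (s e' = v ∨ t e' = v) → e ≠ e' →
        e ∉ B ∧ e' ∉ B ∧ col C₁ C₂ e ≠ col C₁ C₂ e') ∨
      (∃ b ∈ B, (s b = v ∨ t b = v) ∧ (∀ e, (s e = v ∨ t e = v) → e ≠ b → col C₁ C₂ e = k) ∧
        (∀ e e', (s e = v ∨ t e = v) → (s e' = v ∨ t e' = v) → e ≠ b → e' ≠ b → e ≠ e' → e = x ∨ e' = x)) := by
  obtain ⟨a, b, c, hab, hac, hbc, hi, -⟩ := loc hG v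
  have hm : ∀ e, decide (e ∈ B) = !(decide (e ∈ C₁) || decide (e ∈ C₂)) := by
    intro e
    have h3 : e ∈ C₁ ∪ C₂ ↔ e ∈ Bᶜ := by rw [h]
    rw [mem_union, mem_compl] at h3
    by_cases h4 : e ∈ C₁ <;> by_cases h5 : e ∈ C₂ <;> by_cases h6 : e ∈ B <;> simp_all
  have hm1 : ∀ e, (decide (e ∈ C₁) || decide (e ∈ C₂)) = true → e ∉ B := by
    intro e he hB'
    have h3 := hm e
    rw [he] at h3
    simp [hB'] at h3
  have hm2 : ∀ e, (decide (e ∈ C₁) || decide (e ∈ C₂)) = false → e ∈ B := by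
    intro e he
    have h3 := hm e
    rw [he] at h3
    simpa using h3
  have e1 := h1 v
  have e2 := h2 v
  have e3 := hB v
  rw [card3 C₁ hab hac hbc hi] at e1
  rw [card3 C₂ hab hac hbc hi] at e2
  rw [card3 B hab hac hbc hi, hm a, hm b, hm c] at e3
  rcases key _ _ _ _ _ _ (Nat.even_iff.mp e1) (Nat.even_iff.mp e2) e3 with ⟨g1, g2, g3, g4, g5, g6⟩ | ⟨g1, g2⟩ | ⟨g1, g2⟩ | ⟨g1, g2⟩
  · refine ⟨a, 0, Or.inl ?_⟩
    have k1 := hm1 a g1
    have k2 := hm1 b g2
    have k3 := hm1 c g3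
    have g4' : col C₁ C₂ a ≠ col C₁ C₂ b := g4
    have g5' : col C₁ C₂ a ≠ col C₁ C₂ c := g5
    have g6' : col C₁ C₂ b ≠ col C₁ C₂ c := g6
    intro e e' he he' hne
    rw [hi] at he he'
    rcases he with rfl | rfl | rfl <;> rcases he' with rfl | rfl | rfl
    · exact absurd rfl hne
    · exact ⟨k1, k2, g4'⟩
    · exact ⟨k1, k3, g5'⟩
    · exact ⟨k2, k1, g4'.symm⟩
    · exact absurd rfl hne
    · exact ⟨k2, k3, g6'⟩
    · exact ⟨k3, k1, g5'.symm⟩
    · exact ⟨k3, k2, g6'.symm⟩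
    · exact absurd rfl hne
  · have g2' : col C₁ C₂ b = col C₁ C₂ c := g2
    refine ⟨b, col C₁ C₂ b, Or.inr ⟨a, hm2 a g1, (hi a).mpr (Or.inl rfl), ?_, ?_⟩⟩
    · intro e he hne
      rw [hi] at he
      rcases he with rfl | rfl | rfl
      · exact absurd rfl hne
      · rfl
      · exact g2'.symm
    · intro e e' he he' h3 h4 h5
      rw [hi] at he he'
      rcases he with rfl | rfl | rfl <;> rcases he' with rfl | rfl | rfl <;> simp_all
  · have g2' : col C₁ C₂ a = col C₁ C₂ c := g2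
    refine ⟨a, col C₁ C₂ a, Or.inr ⟨b, hm2 b g1, (hi b).mpr (Or.inr (Or.inl rfl)), ?_, ?_⟩⟩
    · intro e he hne
      rw [hi] at he
      rcases he with rfl | rfl | rfl
      · rfl
      · exact absurd rfl hne
      · exact g2'.symm
    · intro e e' he he' h3 h4 h5
      rw [hi] at he he'
      rcases he with rfl | rfl | rfl <;> rcases he' with rfl | rfl | rfl <;> simp_all
  · have g2' : col C₁ C₂ a = col C₁ C₂ b := g2
    refine ⟨a, col C₁ C₂ a, Or.inr ⟨c, hm2 c g1, (hi c).mpr (Or.inr (Or.inr rfl)), ?_, ?_⟩⟩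
    · intro e he hne
      rw [hi] at he
      rcases he with rfl | rfl | rfl
      · rfl
      · exact g2'.symm
      · exact absurd rfl hne
    · intro e e' he he' h3 h4 h5
      rw [hi] at he he'
      rcases he with rfl | rfl | rfl <;> rcases he' with rfl | rfl | rfl <;> simp_all

private theorem third : ∀ p q : Fin 3, ∃ r : Fin 3, r ≠ p ∧ r ≠ q := by decide

theorem matchings {s t : Fin m → Fin n} (hG : Cub s t) {B C₁ C₂ : Finset (Fin m)} (hB : Mtg s t B) (h1 : Evn s t C₁) (h2 : Evn s t C₂)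
    (h : C₁ ∪ C₂ = Bᶜ) : ∃ M : Fin 3 → Finset (Fin m), (∀ i, Mtg s t (M i)) ∧ (∀ i j, i ≠ j → Disjoint (M i) (M j)) ∧
      (univ.filter (fun e => ∀ i, e ∉ M i)).card ≤ 2 * B.card := by
  classical
  choose x k hxk using vert hG hB h1 h2 h
  choose κ hκ using fun b : Fin m => third (k (s b)) (k (t b))
  set X : Finset (Fin m) := B.image (fun b => x (s b)) ∪ B.image (fun b => x (t b)) with hX
  set γ : Fin m → Fin 3 := fun e => if e ∈ B then κ e else col C₁ C₂ e with hγ
  have hu : ∀ v b e, b ∈ B → (s b = v ∨ t b = v) → (s e = v ∨ t e = v) → e ≠ b → e ∉ B := by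
    intro v b e hb hbv hev hne heB
    have h3 := card_le_one.mp (hB v) e (mem_filter.mpr ⟨heB, hev⟩) b (mem_filter.mpr ⟨hb, hbv⟩)
    exact hne h3
  have hkx : ∀ v b, b ∈ B → (s b = v ∨ t b = v) → κ b ≠ k v ∧ x v ∈ X := by
    intro v b hb hbv
    rcases hbv with rfl | rfl
    · exact ⟨(hκ b).1, mem_union_left _ (mem_image_of_mem (fun b => x (s b)) hb)⟩
    · exact ⟨(hκ b).2, mem_union_right _ (mem_image_of_mem (fun b => x (t b)) hb)⟩
  have hγB : ∀ e, e ∈ B → γ e = κ e := fun e he => if_pos he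
  have hγN : ∀ e, e ∉ B → γ e = col C₁ C₂ e := fun e he => if_neg he
  have hv2 : ∀ v b e, b ∈ B → (s b = v ∨ t b = v) → (s e = v ∨ t e = v) → e ≠ b →
      (∀ e, (s e = v ∨ t e = v) → e ≠ b → col C₁ C₂ e = k v) → γ b ≠ γ e := by
    intro v b e hb hbv hev hne hc
    rw [hγB b hb, hγN e (hu v b e hb hbv hev hne), hc e hev hne]
    exact (hkx v b hb hbv).1
  refine ⟨fun i => univ.filter (fun e => (e ∈ B ∨ e ∉ X) ∧ γ e = i), ?_, ?_, ?_⟩
  · intro i v
    rw [card_le_one]
    intro e he e' he'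
    simp only [mem_filter, mem_univ, true_and] at he he'
    obtain ⟨⟨he1, he2⟩, he3⟩ := he
    obtain ⟨⟨he4, he5⟩, he6⟩ := he'
    by_contra hne
    rcases hxk v with h3 | ⟨b, hb, hbv, h4, h5⟩
    · obtain ⟨k1, k2, k3⟩ := h3 e e' he3 he6 hne
      rw [hγN e k1] at he2
      rw [hγN e' k2] at he5
      exact k3 (he2.trans he5.symm)
    · by_cases h6 : e = b
      · subst h6
        exact hv2 v e e' hb hbv he6 (Ne.symm hne) h4 (he2.trans he5.symm)
      · by_cases h7 : e' = b
        · subst h7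
          exact hv2 v e' e hb hbv he3 hne h4 (he5.trans he2.symm)
        · have k1 := hu v b e hb hbv he3 h6
          have k2 := hu v b e' hb hbv he6 h7
          have k3 := (hkx v b hb hbv).2
          rcases h5 e e' he3 he6 h6 h7 hne with h8 | h8
          · rw [← h8] at k3
            rcases he1 with h9 | h9
            · exact k1 h9
            · exact h9 k3
          · rw [← h8] at k3
            rcases he4 with h9 | h9
            · exact k2 h9
            · exact h9 k3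
  · intro i j hij
    rw [disjoint_left]
    intro e he he'
    simp only [mem_filter, mem_univ, true_and] at he he'
    exact hij (he.2.symm.trans he'.2)
  · have h3 : (univ.filter (fun e : Fin m => ∀ i : Fin 3,
        e ∉ univ.filter (fun e => (e ∈ B ∨ e ∉ X) ∧ γ e = i))) ⊆ X := by
      intro e he
      simp only [mem_filter, mem_univ, true_and] at he
      by_contra h4
      exact he (γ e) ⟨Or.inr h4, rfl⟩
    refine (card_le_card h3).trans ?_
    rw [hX]
    refine (card_union_le _ _).trans ?_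
    have h4 := card_image_le (s := B) (f := fun b => x (s b))
    have h5 := card_image_le (s := B) (f := fun b => x (t b))
    omega

end Pool.Agent.Lib.MP_239067_co.NTC
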