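import Pool.Agent.Lib.MP_239067_co.NTC.Defs

/-!
# KPath (60): the component of a vertex of degree 1 in a graph of maximum degree 2 has at most one further vertex of degree 1

PROOF IN WORDS. Induction on `card H`. The edge `e` of `H` at `p` has the other end `u ≠ p`. If `u` has `H`-degree 1: `K = {e}`, `z = u`. Otherwise `u` has `H`-degree 2;
`H' = H.erase e`, `u` has `H'`-degree 1; the induction hypothesis for `H'`, `u` gives `K'`, `z'`. Take `K = insert e K'`, `z = z'`. Closed: an edge of `H` which shares a
vertex with `e` is `e` (at `p`) or at `u` (in `K'` by the second clause for `K'`); an edge of `K'` is not at `p` (only `e` is). Degree 1 in `H` and touched by `K`: it is `p`, or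
not on `e` (since `u` has degree 2), so of `H'`-degree 1 and touched by `K'`, so `u` (impossible) or `z'`.
-/

set_option autoImplicit false

open Finset

namespace Pool.Agent.Lib.MP_239067_co.NTC

variable {n m : ℕ}

theorem path {s t : Fin m → Fin n} (hl : ∀ e, s e ≠ t e) (H : Finset (Fin m))
    (hH : ∀ v, (H.filter (fun e => s e = v ∨ t e = v)).card ≤ 2) (p : Fin n)
    (hp : (H.filter (fun e => s e = p ∨ t e = p)).card = 1) :
    ∃ K : Finset (Fin m), K ⊆ H ∧ ∃ z : Fin n,
      (∀ e ∈ K, ∀ e' ∈ H, ∀ v, (s e = v ∨ t e = v) → (s e' = v ∨ t e' = v) → e' ∈ K) ∧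
      (∀ e ∈ H, (s e = p ∨ t e = p) → e ∈ K) ∧
      (∀ v, (H.filter (fun e => s e = v ∨ t e = v)).card = 1 → (∃ e ∈ K, s e = v ∨ t e = v) → v = p ∨ v = z) := by
  induction H using Finset.strongInduction generalizing p with
  | H H ih =>
    obtain ⟨e, he⟩ := Finset.card_eq_one.1 hp
    have heH : e ∈ H ∧ (s e = p ∨ t e = p) := by
      have h : e ∈ H.filter (fun e => s e = p ∨ t e = p) := by
        rw [he]
        exact mem_singleton_self e
      exact mem_filter.1 h
    have hep : ∀ e' ∈ H, (s e' = p ∨ t e' = p) → e' = e := by
      intro e' he' h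
      have h1 : e' ∈ H.filter (fun e => s e = p ∨ t e = p) := mem_filter.2 ⟨he', h⟩
      rw [he] at h1
      exact mem_singleton.1 h1
    obtain ⟨u, hup, heu, hends⟩ : ∃ u, u ≠ p ∧ (s e = u ∨ t e = u) ∧
        ∀ v, (s e = v ∨ t e = v) → v = p ∨ v = u := by
      rcases heH.2 with h | h
      · refine ⟨t e, fun h' => hl e (h.trans h'.symm), Or.inr rfl, ?_⟩
        rintro v (h1 | h1)
        · exact Or.inl (h1.symm.trans h)
        · exact Or.inr h1.symm
      · refine ⟨s e, fun h' => hl e (h'.trans h.symm), Or.inl rfl, ?_⟩
        rintro v (h1 | h1)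
        · exact Or.inr h1.symm
        · exact Or.inl (h1.symm.trans h)
    have heu' : e ∈ H.filter (fun e => s e = u ∨ t e = u) := mem_filter.2 ⟨heH.1, heu⟩
    by_cases hu : (H.filter (fun e => s e = u ∨ t e = u)).card = 1
    · refine ⟨{e}, singleton_subset_iff.2 heH.1, u, ?_, ?_, ?_⟩
      · intro e1 he1 e' he' v hv hv'
        rw [mem_singleton.1 he1] at hv
        rcases hends v hv with h | h
        · rw [h] at hv'
          exact mem_singleton.2 (hep e' he' hv')
        · rw [h] at hv'
          obtain ⟨a, ha⟩ := Finset.card_eq_one.1 hu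
          have h1 : e' ∈ H.filter (fun e => s e = u ∨ t e = u) := mem_filter.2 ⟨he', hv'⟩
          rw [ha] at h1 heu'
          rw [mem_singleton] at h1 heu'
          exact mem_singleton.2 (h1.trans heu'.symm)
      · intro e' he' h
        exact mem_singleton.2 (hep e' he' h)
      · rintro v hv ⟨e1, he1, h1⟩
        rw [mem_singleton.1 he1] at h1
        exact hends v h1
    · have hf : ∀ v, (H.erase e).filter (fun e => s e = v ∨ t e = v) =
          (H.filter (fun e => s e = v ∨ t e = v)).erase e := by
        intro v
        ext a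
        simp only [mem_filter, mem_erase]
        tauto
      have hd2 : ∀ v, ¬ (s e = v ∨ t e = v) → ((H.erase e).filter (fun e => s e = v ∨ t e = v)).card =
          (H.filter (fun e => s e = v ∨ t e = v)).card := by
        intro v hv
        have h1 : e ∉ H.filter (fun e => s e = v ∨ t e = v) := fun h => hv (mem_filter.1 h).2
        rw [hf, Finset.erase_eq_of_notMem h1]
      have hH' : ∀ v, ((H.erase e).filter (fun e => s e = v ∨ t e = v)).card ≤ 2 := by
        intro v
        rw [hf]
        exact (Finset.card_erase_le).trans (hH v)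
      have hu' : ((H.erase e).filter (fun e => s e = u ∨ t e = u)).card = 1 := by
        rw [hf, Finset.card_erase_of_mem heu']
        have h1 := hH u
        have h2 : 0 < (H.filter (fun e => s e = u ∨ t e = u)).card := Finset.card_pos.2 ⟨e, heu'⟩
        omega
      obtain ⟨K', hK', z', c1, c2, c3⟩ := ih (H.erase e) (Finset.erase_ssubset heH.1) hH' u hu'
      refine ⟨insert e K', insert_subset heH.1 (hK'.trans (erase_subset _ _)), z', ?_, ?_, ?_⟩
      · intro e1 he1 e' he' v hv hv'
        by_cases h : e' = e
        · rw [h]
          exact mem_insert_self _ _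
        · refine mem_insert_of_mem ?_
          rcases mem_insert.1 he1 with h1 | h1
          · rw [h1] at hv
            rcases hends v hv with h2 | h2
            · rw [h2] at hv'
              exact absurd (hep e' he' hv') h
            · rw [h2] at hv'
              exact c2 e' (mem_erase.2 ⟨h, he'⟩) hv'
          · exact c1 e1 h1 e' (mem_erase.2 ⟨h, he'⟩) v hv hv'
      · intro e' he' h
        rw [hep e' he' h]
        exact mem_insert_self _ _
      · rintro v hv ⟨e1, he1, h1⟩
        by_cases hev : s e = v ∨ t e = v
        · rcases hends v hev with h | h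
          · exact Or.inl h
          · rw [h] at hv
            exact absurd hv hu
        · have h2 : e1 ∈ K' := (mem_insert.1 he1).resolve_left (fun h => hev (h ▸ h1))
          rcases c3 v (by rw [hd2 v hev]; exact hv) ⟨e1, h2, h1⟩ with h | h
          · exact absurd (h ▸ heu) hev
          · exact Or.inr h

end Pool.Agent.Lib.MP_239067_co.NTC
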