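import Pool.Agent.Lib.MP_239067_co.NTC.Defs

/-!
# KSwap (60): Kempe change

`N = (A ∩ K) ∪ (A' \ K)`, `N' = (A' ∩ K) ∪ (A \ K) ∪ {x}`. At every vertex the edges of `A ∪ A'` are all in `K` or all outside `K` (`hK`), so `N` and `N' \ {x}` have at most
one edge there. At an end `u` of `x`: in the first case of `hv` there is no edge of `A' ∩ K` (all are in `A`, `A` and `A'` are disjoint) and none of `A \ K`; the second case
is the same. (`Mtg` in the form: two edges of the set at the same vertex are equal, `Finset.card_le_one`.)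
-/

set_option autoImplicit false

open Finset

namespace Pool.Agent.Lib.MP_239067_co.NTC

variable {n m : ℕ}

private theorem mtg_iff {s t : Fin m → Fin n} {B : Finset (Fin m)} : Mtg s t B ↔
    ∀ u, ∀ e ∈ B, ∀ e' ∈ B, (s e = u ∨ t e = u) → (s e' = u ∨ t e' = u) → e = e' := by
  constructor
  · intro h u e he e' he' h1 h2
    exact Finset.card_le_one.1 (h u) e (mem_filter.2 ⟨he, h1⟩) e' (mem_filter.2 ⟨he', h2⟩)
  · intro h u
    rw [Finset.card_le_one]
    intro e he e' he'
    rw [mem_filter] at he he'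
    exact h u e he.1 e' he'.1 he.2 he'.2

private theorem mix {s t : Fin m → Fin n} {A A' K : Finset (Fin m)} (hA : Mtg s t A) (hA' : Mtg s t A')
    (hK : ∀ e ∈ K, ∀ e' ∈ A ∪ A', ∀ u, (s e = u ∨ t e = u) → (s e' = u ∨ t e' = u) → e' ∈ K) :
    Mtg s t ((A ∩ K) ∪ (A' \ K)) := by
  rw [mtg_iff] at hA hA' ⊢
  intro u e he e' he' h1 h2
  rw [mem_union, mem_inter, mem_sdiff] at he he'
  rcases he with he | he <;> rcases he' with he' | he'
  · exact hA u e he.1 e' he'.1 h1 h2
  · exact absurd (hK e he.2 e' (mem_union_right _ he'.1) u h1 h2) he'.2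
  · exact absurd (hK e' he'.2 e (mem_union_right _ he.1) u h2 h1) he.2
  · exact hA' u e he.1 e' he'.1 h1 h2

theorem swap {s t : Fin m → Fin n} {A A' K : Finset (Fin m)} (hA : Mtg s t A) (hA' : Mtg s t A') (hd : Disjoint A A')
    {x : Fin m} (hx : x ∉ A ∪ A')
    (hK : ∀ e ∈ K, ∀ e' ∈ A ∪ A', ∀ u, (s e = u ∨ t e = u) → (s e' = u ∨ t e' = u) → e' ∈ K) (hKH : K ⊆ A ∪ A')
    (hv : ∀ u, (s x = u ∨ t x = u) → ((∀ e ∈ A ∪ A', (s e = u ∨ t e = u) → e ∈ K ∧ e ∈ A) ∨
      (∀ e ∈ A ∪ A', (s e = u ∨ t e = u) → e ∉ K ∧ e ∈ A'))) :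
    ∃ N N' : Finset (Fin m), Mtg s t N ∧ Mtg s t N' ∧ Disjoint N N' ∧ N ∪ N' = insert x (A ∪ A') := by
  have hK' : ∀ e ∈ K, ∀ e' ∈ A' ∪ A, ∀ u, (s e = u ∨ t e = u) → (s e' = u ∨ t e' = u) → e' ∈ K := by
    rw [union_comm]
    exact hK
  have hdis : ∀ e, e ∈ A → e ∈ A' → False := fun e h1 h2 => (Finset.disjoint_left.1 hd) h1 h2
  have hno : ∀ u, (s x = u ∨ t x = u) → ∀ e ∈ (A' ∩ K) ∪ (A \ K), (s e = u ∨ t e = u) → False := by
    intro u hu e he h1
    rw [mem_union, mem_inter, mem_sdiff] at he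
    rcases hv u hu with h | h <;> rcases he with he | he
    · exact hdis e (h e (mem_union_right _ he.1) h1).2 he.1
    · exact he.2 (h e (mem_union_left _ he.1) h1).1
    · exact (h e (mem_union_right _ he.1) h1).1 he.2
    · exact hdis e he.1 (h e (mem_union_left _ he.1) h1).2
  refine ⟨(A ∩ K) ∪ (A' \ K), insert x ((A' ∩ K) ∪ (A \ K)), mix hA hA' hK, ?_, ?_, ?_⟩
  · have h0 := mtg_iff.1 (mix hA' hA hK')
    rw [mtg_iff]
    intro u e he e' he' h1 h2
    rw [mem_insert] at he he'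
    rcases he with rfl | he <;> rcases he' with rfl | he'
    · rfl
    · exact (hno u h1 e' he' h2).elim
    · exact (hno u h2 e he h1).elim
    · exact h0 u e he e' he' h1 h2
  · rw [Finset.disjoint_left]
    intro e he he'
    rw [mem_union, mem_inter, mem_sdiff] at he
    rw [mem_insert, mem_union, mem_inter, mem_sdiff] at he'
    rcases he' with rfl | he'
    · refine hx (mem_union.2 ?_)
      tauto
    · have := hdis e
      tauto
  · ext e
    have h1 : e ∈ K → e ∈ A ∪ A' := fun h => hKH h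
    simp only [mem_union, mem_inter, mem_sdiff, mem_insert] at h1 ⊢
    tauto

end Pool.Agent.Lib.MP_239067_co.NTC
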