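import Pool.Agent.Lib.MP_239067_co.NTC.KFree
import Pool.Agent.Lib.MP_239067_co.NTC.KPath
import Pool.Agent.Lib.MP_239067_co.NTC.KSwap

/-!
# KStep (130): if two uncovered edges meet, three disjoint matchings with fewer uncovered edges

PROOF IN WORDS. Colour `i` is free at `u` if no edge of `M i` is at `u`. A vertex with `k` uncovered edges has at least `k` free colours (three edges, `loc`; the `3 - k` covered edges
use at most `3 - k` colours): `free_one`, `free_two` in KFree. Let `x₁ ≠ x₂` be uncovered edges at `v`, `w₁`, `w₂` their other ends. `v` has at least 2 free colours, `w₁`, `w₂` at least one. If a colour `i` is free at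
both ends of an uncovered edge `x`, take `M' i = insert x (M i)`: done. Otherwise, with `α` free at `w₁`: `α` is not free at `v`, the two other colours are free at `v` (at least
two are), so they are not free at `w₁`, `w₂`, and `α` is free at `w₂`. If `w₁ = w₂`, that vertex has two uncovered edges, two free colours: contradiction. Let `β ≠ α`,
`H = M α ∪ M β`: `v` is on exactly one edge of `H` (colour `α`), `w₁`, `w₂` on exactly one (colour `β`). `path` with `p = v`: `K`, `z`; one of `w₁`, `w₂` is not `z`, say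
`w`, with `x`: no edge of `K` is at `w`. `swap` with `A = M α`, `A' = M β`, `x`: `N`, `N'`; `M' = M` with `N`, `N'` at `α`, `β`.
-/

set_option autoImplicit false

open Finset

namespace Pool.Agent.Lib.MP_239067_co.NTC

variable {n m : ℕ}

private theorem repl {s t : Fin m → Fin n} (M : Fin 3 → Finset (Fin m)) (h1 : ∀ i, Mtg s t (M i))
    (h2 : ∀ i j, i ≠ j → Disjoint (M i) (M j)) {α β : Fin 3} (hab : α ≠ β) {x : Fin m} (hx : ∀ i, x ∉ M i)
    {N N' : Finset (Fin m)} (hN : Mtg s t N) (hN' : Mtg s t N') (hd : Disjoint N N') (hu : N ∪ N' = insert x (M α ∪ M β)) :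
    ∃ M' : Fin 3 → Finset (Fin m), (∀ i, Mtg s t (M' i)) ∧ (∀ i j, i ≠ j → Disjoint (M' i) (M' j)) ∧
      (univ.filter (fun e => ∀ i, e ∉ M' i)).card < (univ.filter (fun e => ∀ i, e ∉ M i)).card := by
  classical
  have hk : ∀ k, k ≠ α → k ≠ β → Disjoint N (M k) ∧ Disjoint N' (M k) := by
    intro k hka hkb
    have h3 : Disjoint (N ∪ N') (M k) := by
      rw [hu, disjoint_insert_left, disjoint_union_left]
      exact ⟨hx k, h2 _ _ hka.symm, h2 _ _ hkb.symm⟩
    rwa [disjoint_union_left] at h3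
  refine ⟨fun i => if i = α then N else if i = β then N' else M i, ?_, ?_, ?_⟩
  · intro i
    by_cases hi : i = α
    · simp only [hi, if_true]; exact hN
    · by_cases hi' : i = β
      · simp only [hi', if_neg hab.symm, if_true]; exact hN'
      · simp only [if_neg hi, if_neg hi']; exact h1 i
  · intro i j hij
    by_cases hi : i = α
    · subst hi
      by_cases hj : j = β
      · subst hj
        simp only [if_true, if_neg hab.symm]
        exact hd
      · simp only [if_true, if_neg hij.symm, if_neg hj]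
        exact (hk j hij.symm hj).1
    · by_cases hi' : i = β
      · subst hi'
        by_cases hj : j = α
        · subst hj
          simp only [if_neg hi, if_true]
          exact hd.symm
        · simp only [if_neg hi, if_true, if_neg hj, if_neg hij.symm]
          exact (hk j hj hij.symm).2
      · by_cases hj : j = α
        · subst hj
          simp only [if_neg hi, if_neg hi', if_true]
          exact (hk i hi hi').1.symm
        · by_cases hj' : j = β
          · subst hj'
            simp only [if_neg hi, if_neg hi', if_neg hj, if_true]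
            exact (hk i hi hi').2.symm
          · simp only [if_neg hi, if_neg hi', if_neg hj, if_neg hj']
            exact h2 i j hij
  · apply card_lt_card
    rw [ssubset_iff_of_subset]
    · refine ⟨x, ?_, ?_⟩
      · rw [mem_filter]; exact ⟨mem_univ _, hx⟩
      · rw [mem_filter]
        rintro ⟨-, h3⟩
        have h4 := h3 α
        have h5 := h3 β
        simp only [if_true] at h4
        simp only [if_neg hab.symm, if_true] at h5
        have h6 : x ∈ N ∪ N' := by rw [hu]; exact mem_insert_self _ _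
        rw [mem_union] at h6
        tauto
    · intro e he
      rw [mem_filter] at he ⊢
      refine ⟨mem_univ _, ?_⟩
      have h4 := he.2 α
      have h5 := he.2 β
      simp only [if_true] at h4
      simp only [if_neg hab.symm, if_true] at h5
      have h6 : e ∉ insert x (M α ∪ M β) := by
        rw [← hu, mem_union]
        tauto
      rw [mem_insert, mem_union] at h6
      intro k
      by_cases hka : k = α
      · rw [hka]; tauto
      · by_cases hkb : k = β
        · rw [hkb]; tauto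
        · have h7 := he.2 k
          simp only [if_neg hka, if_neg hkb] at h7
          exact h7

private theorem other {s t : Fin m → Fin n} (hl : ∀ e, s e ≠ t e) {x : Fin m} {v : Fin n} (hx : s x = v ∨ t x = v) :
    ∃ w, w ≠ v ∧ (s x = w ∨ t x = w) ∧ ∀ u, (s x = u ∨ t x = u) → u = v ∨ u = w := by
  have := hl x
  rcases hx with hx | hx
  · refine ⟨t x, fun h => this (by rw [hx, h]), Or.inr rfl, ?_⟩
    rintro u (h | h)
    · left; rw [← h, hx]
    · right; exact h.symm
  · refine ⟨s x, fun h => this (by rw [hx, h]), Or.inl rfl, ?_⟩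
    rintro u (h | h)
    · right; exact h.symm
    · left; rw [← h, hx]

private theorem addx {s t : Fin m → Fin n} (M : Fin 3 → Finset (Fin m)) (h1 : ∀ i, Mtg s t (M i))
    (h2 : ∀ i j, i ≠ j → Disjoint (M i) (M j)) {x : Fin m} (hx : ∀ i, x ∉ M i) {v w : Fin n}
    (hvw : ∀ u, (s x = u ∨ t x = u) → u = v ∨ u = w) {k : Fin 3} (hv : ∀ e ∈ M k, ¬ (s e = v ∨ t e = v))
    (hw : ∀ e ∈ M k, ¬ (s e = w ∨ t e = w)) :
    ∃ M' : Fin 3 → Finset (Fin m), (∀ i, Mtg s t (M' i)) ∧ (∀ i j, i ≠ j → Disjoint (M' i) (M' j)) ∧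
      (univ.filter (fun e => ∀ i, e ∉ M' i)).card < (univ.filter (fun e => ∀ i, e ∉ M i)).card := by
  classical
  obtain ⟨l, hl⟩ : ∃ l : Fin 3, k ≠ l := ⟨k + 1, by fin_cases k <;> decide⟩
  refine repl M h1 h2 hl hx (N := insert x (M k)) (N' := M l) ?_ (h1 l) ?_ ?_
  · intro u
    rw [filter_insert]
    split_ifs with h3
    · have h4 : (M k).filter (fun e => s e = u ∨ t e = u) = ∅ := by
        rw [filter_eq_empty_iff]
        intro e he
        rcases hvw u h3 with h5 | h5
        · rw [h5]; exact hv e he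
        · rw [h5]; exact hw e he
      rw [h4]
      simp
    · exact h1 k u
  · rw [disjoint_insert_left]
    exact ⟨hx l, h2 _ _ hl⟩
  · rw [insert_union]

private theorem degone {s t : Fin m → Fin n} {A A' : Finset (Fin m)} (hA : Mtg s t A) {u : Fin n}
    (h3 : ∀ e ∈ A', ¬ (s e = u ∨ t e = u)) (h4 : ∃ e ∈ A, s e = u ∨ t e = u) :
    ((A ∪ A').filter (fun e => s e = u ∨ t e = u)).card = 1 := by
  classical
  have h5 : (A ∪ A').filter (fun e => s e = u ∨ t e = u) = A.filter (fun e => s e = u ∨ t e = u) := by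
    rw [filter_union, filter_eq_empty_iff.2 (fun e he => h3 e he), union_empty]
  rw [h5]
  obtain ⟨e, he, he'⟩ := h4
  have h6 : 0 < (A.filter (fun e => s e = u ∨ t e = u)).card := card_pos.2 ⟨e, mem_filter.2 ⟨he, he'⟩⟩
  have := hA u
  omega

theorem step {s t : Fin m → Fin n} (hG : Cub s t) (M : Fin 3 → Finset (Fin m)) (h1 : ∀ i, Mtg s t (M i))
    (h2 : ∀ i j, i ≠ j → Disjoint (M i) (M j)) (hX : ¬ Mtg s t (univ.filter (fun e => ∀ i, e ∉ M i))) :
    ∃ M' : Fin 3 → Finset (Fin m), (∀ i, Mtg s t (M' i)) ∧ (∀ i j, i ≠ j → Disjoint (M' i) (M' j)) ∧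
      (univ.filter (fun e => ∀ i, e ∉ M' i)).card < (univ.filter (fun e => ∀ i, e ∉ M i)).card := by
  classical
  unfold Mtg at hX
  push Not at hX
  obtain ⟨v, hv⟩ := hX
  rw [one_lt_card] at hv
  obtain ⟨x₁, hx₁, x₂, hx₂, h12⟩ := hv
  simp only [mem_filter, mem_univ, true_and] at hx₁ hx₂
  obtain ⟨w₁, hv1, hw1, hu1⟩ := other hG.1 hx₁.2
  obtain ⟨w₂, hv2, hw2, hu2⟩ := other hG.1 hx₂.2
  obtain ⟨i, j, hij, hi, hj⟩ := free_two hG M h2 v x₁ x₂ h12 hx₁.1 hx₂.1 hx₁.2 hx₂.2
  obtain ⟨a₁, ha₁⟩ := free_one hG M h2 w₁ x₁ hx₁.1 hw1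
  obtain ⟨a₂, ha₂⟩ := free_one hG M h2 w₂ x₂ hx₂.1 hw2
  by_cases hc1 : ∃ k, (∀ e ∈ M k, ¬ (s e = v ∨ t e = v)) ∧ ∀ e ∈ M k, ¬ (s e = w₁ ∨ t e = w₁)
  · obtain ⟨k, hk, hk'⟩ := hc1
    exact addx M h1 h2 hx₁.1 hu1 hk hk'
  by_cases hc2 : ∃ k, (∀ e ∈ M k, ¬ (s e = v ∨ t e = v)) ∧ ∀ e ∈ M k, ¬ (s e = w₂ ∨ t e = w₂)
  · obtain ⟨k, hk, hk'⟩ := hc2
    exact addx M h1 h2 hx₂.1 hu2 hk hk'
  have b1 : a₁ ≠ i := fun h => hc1 ⟨i, hi, h ▸ ha₁⟩
  have b2 : a₁ ≠ j := fun h => hc1 ⟨j, hj, h ▸ ha₁⟩
  have b3 : a₂ ≠ i := fun h => hc2 ⟨i, hi, h ▸ ha₂⟩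
  have b4 : a₂ ≠ j := fun h => hc2 ⟨j, hj, h ▸ ha₂⟩
  have b5 : a₂ = a₁ := by omega
  subst b5
  -- not free at `v`
  have c0 : ∃ e ∈ M a₂, s e = v ∨ t e = v := by
    by_contra h
    push Not at h
    exact hc1 ⟨a₂, fun e he h' => by have := h e he; tauto, ha₁⟩
  have c1 : ∃ e ∈ M i, s e = w₁ ∨ t e = w₁ := by
    by_contra h
    push Not at h
    exact hc1 ⟨i, hi, fun e he h' => by have := h e he; tauto⟩
  have c2 : ∃ e ∈ M i, s e = w₂ ∨ t e = w₂ := by
    by_contra h
    push Not at h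
    exact hc2 ⟨i, hi, fun e he h' => by have := h e he; tauto⟩
  have hw12 : w₁ ≠ w₂ := by
    intro h
    obtain ⟨k, l, hkl, hk, hl⟩ := free_two hG M h2 w₁ x₁ x₂ h12 hx₁.1 hx₂.1 hw1 (by rw [h]; exact hw2)
    have d1 : k ≠ i := fun h => hc1 ⟨i, hi, h ▸ hk⟩
    have d2 : k ≠ j := fun h => hc1 ⟨j, hj, h ▸ hk⟩
    have d3 : l ≠ i := fun h => hc1 ⟨i, hi, h ▸ hl⟩
    have d4 : l ≠ j := fun h => hc1 ⟨j, hj, h ▸ hl⟩
    omega
  have e0 := degone (h1 a₂) (A' := M i) (u := v) hi c0
  have e1 := degone (h1 i) (A' := M a₂) (u := w₁) ha₁ c1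
  have e2 := degone (h1 i) (A' := M a₂) (u := w₂) ha₂ c2
  rw [union_comm] at e1 e2
  have e3 : ∀ u, ((M a₂ ∪ M i).filter (fun e => s e = u ∨ t e = u)).card ≤ 2 := by
    intro u
    rw [filter_union]
    have := card_union_le ((M a₂).filter (fun e => s e = u ∨ t e = u)) ((M i).filter (fun e => s e = u ∨ t e = u))
    have := h1 a₂ u
    have := h1 i u
    omega
  obtain ⟨K, hKH, z, k1, k2, k3⟩ := path hG.1 (M a₂ ∪ M i) e3 v e0
  have fin : ∀ x : Fin m, ∀ w : Fin n, (∀ i, x ∉ M i) → w ≠ v → w ≠ z → (∀ u, (s x = u ∨ t x = u) → u = v ∨ u = w) →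
      (∀ e ∈ M a₂, ¬ (s e = w ∨ t e = w)) → ((M a₂ ∪ M i).filter (fun e => s e = w ∨ t e = w)).card = 1 →
      ∃ M' : Fin 3 → Finset (Fin m), (∀ i, Mtg s t (M' i)) ∧ (∀ i j, i ≠ j → Disjoint (M' i) (M' j)) ∧
        (univ.filter (fun e => ∀ i, e ∉ M' i)).card < (univ.filter (fun e => ∀ i, e ∉ M i)).card := by
    intro x w hx hwv hwz hvw haw hdw
    have hx' : x ∉ M a₂ ∪ M i := by
      rw [mem_union]
      have := hx a₂
      have := hx i
      tauto
    obtain ⟨N, N', n1, n2, n3, n4⟩ := swap (h1 a₂) (h1 i) (h2 _ _ b1) hx' k1 hKH (by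
      intro u hu
      rcases hvw u hu with h | h
      · left
        subst h
        intro e he heu
        refine ⟨k2 e he heu, ?_⟩
        rw [mem_union] at he
        rcases he with he | he
        · exact he
        · exact absurd heu (hi e he)
      · right
        subst h
        intro e he heu
        refine ⟨fun hK => ?_, ?_⟩
        · rcases k3 u hdw ⟨e, hK, heu⟩ with h5 | h5
          · exact hwv h5
          · exact hwz h5
        · rw [mem_union] at he
          rcases he with he | he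
          · exact absurd heu (haw e he)
          · exact he)
    exact repl M h1 h2 b1 hx n1 n2 n3 n4
  by_cases hz : w₁ = z
  · exact fin x₂ w₂ hx₂.1 hv2 (fun h => hw12 (hz.trans h.symm)) hu2 ha₂ e2
  · exact fin x₁ w₁ hx₁.1 hv1 hz hu1 ha₁ e1

end Pool.Agent.Lib.MP_239067_co.NTC
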