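import Pool.Agent.Lib.MP_239067_co.NTC.Defs

/-!
# Loc (70): the three edges at a vertex
-/

set_option autoImplicit false

open Finset

namespace Pool.Agent.Lib.MP_239067_co.NTC

variable {n m : ℕ}

theorem loc {s t : Fin m → Fin n} (hG : Cub s t) (v : Fin n) : ∃ a b c : Fin m, a ≠ b ∧ a ≠ c ∧ b ≠ c ∧
    (∀ e, (s e = v ∨ t e = v) ↔ (e = a ∨ e = b ∨ e = c)) ∧
    ∃ σ : Fin m → ℤ, (∀ e, σ e = 1 ∨ σ e = -1) ∧
      ∀ {A : Type} [AddCommGroup A] (f : Fin m → A), Kir s t f → σ a • f a + σ b • f b + σ c • f c = 0 := by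
  have hdisj : Disjoint (univ.filter (fun e => s e = v)) (univ.filter (fun e => t e = v)) :=
    Finset.disjoint_left.2 fun e he he' => hG.1 e ((mem_filter.1 he).2.trans (mem_filter.1 he').2.symm)
  have hcard : (univ.filter (fun e => s e = v) ∪ univ.filter (fun e => t e = v)).card = 3 := by
    rw [card_union_of_disjoint hdisj]
    exact hG.2 v
  obtain ⟨a, b, c, hab, hac, hbc, hU⟩ := card_eq_three.1 hcard
  refine ⟨a, b, c, hab, hac, hbc, fun e => ?_, fun e => if s e = v then 1 else -1, fun e => ?_, fun {A} _ f hf => ?_⟩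
  · have h1 : e ∈ univ.filter (fun e => s e = v) ∪ univ.filter (fun e => t e = v) ↔ e ∈ ({a, b, c} : Finset (Fin m)) := by
      rw [hU]
    simpa only [mem_union, mem_filter, mem_univ, true_and, mem_insert, mem_singleton] using h1
  · by_cases h : s e = v
    · exact Or.inl (if_pos h)
    · exact Or.inr (if_neg h)
  · have h2 : ∑ e ∈ univ.filter (fun e => s e = v) ∪ univ.filter (fun e => t e = v),
        (if s e = v then (1 : ℤ) else -1) • f e = 0 := by
      rw [sum_union hdisj]
      have h3 : ∑ e ∈ univ.filter (fun e => s e = v), (if s e = v then (1 : ℤ) else -1) • f e =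
          ∑ e ∈ univ.filter (fun e => s e = v), f e :=
        sum_congr rfl fun e he => by rw [if_pos (mem_filter.1 he).2, one_smul]
      have h4 : ∑ e ∈ univ.filter (fun e => t e = v), (if s e = v then (1 : ℤ) else -1) • f e =
          -∑ e ∈ univ.filter (fun e => t e = v), f e := by
        rw [← sum_neg_distrib]
        exact sum_congr rfl fun e he => by
          rw [if_neg (fun h => hG.1 e (h.trans (mem_filter.1 he).2.symm)), neg_smul, one_smul]
      rw [h3, h4, hf v, add_neg_cancel]
    have ha : a ∉ ({b, c} : Finset (Fin m)) := by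
      simp only [mem_insert, mem_singleton, not_or]
      exact ⟨hab, hac⟩
    have hb : b ∉ ({c} : Finset (Fin m)) := by
      simp only [mem_singleton]
      exact hbc
    rw [hU, sum_insert ha, sum_insert hb, sum_singleton, ← add_assoc] at h2
    exact h2

end Pool.Agent.Lib.MP_239067_co.NTC
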