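import Pool.Agent.Lib.MP_239067_co.NTC.Bad
import Pool.Agent.Lib.MP_239067_co.NTC.Evs
import Pool.Agent.Lib.MP_239067_co.NTC.Mat

/-!
# Circular flow number near 4: nearly 3-edge-colourable
-/

set_option autoImplicit false

open Finset

namespace Pool.Agent.Lib.MP_239067_co.NTC

variable {n m : ℕ}

theorem main {s t : Fin m → Fin n} (hG : Cub s t) {r : ℝ} (h4 : 4 ≤ r) (h8 : r < 8) {f : Fin m → ℝ}
    (hb : ∀ e, 1 ≤ |f e| ∧ |f e| ≤ r - 1) (hf : Kir s t f) :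
    ∃ B C₁ C₂ : Finset (Fin m), ∃ M : Fin 3 → Finset (Fin m), (B.card : ℝ) ≤ (1 - 4 / r) * n ∧ Mtg s t B ∧
      Evn s t C₁ ∧ Evn s t C₂ ∧ C₁ ∪ C₂ = Bᶜ ∧ (∀ i, Mtg s t (M i)) ∧ (∀ i j, i ≠ j → Disjoint (M i) (M j)) ∧
      ((univ.filter (fun e => ∀ i, e ∉ M i)).card : ℝ) ≤ 2 * (1 - 4 / r) * n := by
  have hr : 0 < r := by linarith
  have h1 : 0 < 4 / r := by positivity
  have h2 : 4 / r ≤ 1 := by rw [div_le_one hr]; exact h4
  have h3 : 1 / 2 < 4 / r := by rw [div_lt_div_iff₀ (by norm_num) hr]; linarith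
  have h5 : 4 / r * r = 4 := by field_simp
  obtain ⟨g, hg, hc, hm⟩ := bad hG (d := 1 - 4 / r) (by linarith) (by linarith) (f := fun e => 4 / r * f e)
    (by
      intro v
      rw [← mul_sum, ← mul_sum, hf v])
    (by
      intro e
      obtain ⟨h6, h7⟩ := hb e
      rw [abs_mul, abs_of_pos h1]
      constructor
      · nlinarith
      · nlinarith)
  obtain ⟨C₁, C₂, e1, e2, e3⟩ := evens hG.1 hg
  obtain ⟨M, m1, m2, m3⟩ := matchings hG hm e1 e2 e3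
  refine ⟨_, C₁, C₂, M, hc, hm, e1, e2, e3, m1, m2, ?_⟩
  have : ((univ.filter (fun e => ∀ i, e ∉ M i)).card : ℝ) ≤
      2 * ((univ.filter (fun e => (4 : ℤ) ∣ g e)).card : ℝ) := by exact_mod_cast m3
  linarith

end Pool.Agent.Lib.MP_239067_co.NTC
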