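import Pool.Agent.Lib.MP_239067_co.NTC.Defs

/-!
# Rnd (150): rounding a real flow to an integer flow, with cost

PROOF IN WORDS. First the form with bounds: `lo e ≤ f e ≤ hi e`, `lo, hi : Fin m → ℤ`, `hi e ≤ lo e + 1`; strong induction on the number of the edges with
`lo e < f e < hi e` (set `S`). `S = ∅`: `f e = lo e` or `f e = hi e`, take `g`. Otherwise let `W` be the set of the vertices incident with an edge of `S`. Every
`v ∈ W` is on at least two edges of `S`: if it were on one only, Kirchhoff's law at `v` would give an integer value of `f` there. So `card W ≤ card S`.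
The linear equations `h e = 0` (`e ∉ S`) and Kirchhoff's law at the vertices of `W` except one are fewer than `m`: there is `h ≠ 0`, supported on `S`, and
Kirchhoff's law holds at the last vertex too (sum over all vertices). Replace `h` by `-h` if
`∑ c e * h e > 0`. Let `θ` be the largest real with `lo ≤ f + θ h ≤ hi`: (minimum over the `e ∈ S` with `h e ≠ 0` of `(hi e - f e) / h e`, resp. `(f e - lo e) / (- h e)`):
`f + θ h` is a flow with fewer edges in `S`, and the cost did not increase. Induction. For `round` take `lo = ⌊f⌋`, `hi = ⌈f⌉` (`Int.ceil_le_floor_add_one`).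
-/

set_option autoImplicit false

open Finset

namespace Pool.Agent.Lib.MP_239067_co.NTC

variable {n m : ℕ}

private theorem isInt {f : ℝ} {lo hi : ℤ} (h1 : (lo : ℝ) ≤ f) (h2 : f ≤ hi) (h3 : ¬ ((lo : ℝ) < f ∧ f < hi)) :
    ∃ z : ℤ, (z : ℝ) = f ∧ lo ≤ z ∧ z ≤ hi := by
  have h5 : lo ≤ hi := by
    have : (lo : ℝ) ≤ hi := by linarith
    exact_mod_cast this
  rcases eq_or_lt_of_le h1 with h | h
  · exact ⟨lo, h, le_rfl, h5⟩
  · have : f = hi := by
      by_contra h4
      exact h3 ⟨h, lt_of_le_of_ne h2 h4⟩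
    exact ⟨hi, this.symm, h5, le_rfl⟩

private theorem second {s t : Fin m → Fin n} (hl : ∀ e, s e ≠ t e) {f : Fin m → ℝ} (hf : Kir s t f) {lo hi : Fin m → ℤ}
    (h1 : ∀ e, (lo e : ℝ) ≤ f e) (h2 : ∀ e, f e ≤ hi e) (h3 : ∀ e, hi e ≤ lo e + 1) {S : Finset (Fin m)}
    (hS : ∀ e, e ∈ S ↔ ((lo e : ℝ) < f e ∧ f e < hi e)) (e₁ : Fin m) (he : e₁ ∈ S) (v : Fin n) (hv : s e₁ = v ∨ t e₁ = v) :
    ∃ e₂ ∈ S, e₂ ≠ e₁ ∧ (s e₂ = v ∨ t e₂ = v) := by
  by_contra hcon
  push Not at hcon
  have key : ∀ e, e ≠ e₁ → (s e = v ∨ t e = v) → f e ∈ (Int.castAddHom ℝ).range := by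
    intro e h h4
    have h5 : e ∉ S := fun h6 => by
      have := hcon e h6 h
      tauto
    rw [hS] at h5
    obtain ⟨z, hz, -⟩ := isInt (h1 e) (h2 e) h5
    exact ⟨z, hz⟩
  have hne : s e₁ ≠ t e₁ := hl e₁
  have main : f e₁ ∈ (Int.castAddHom ℝ).range := by
    have hk := hf v
    rcases hv with hv | hv
    · have a1 : e₁ ∈ univ.filter (fun e => s e = v) := by simp [hv]
      rw [← add_sum_erase _ _ a1] at hk
      have h6 : f e₁ = ∑ e ∈ univ.filter (fun e => t e = v), f e - ∑ e ∈ (univ.filter (fun e => s e = v)).erase e₁, f e := by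
        linarith
      rw [h6]
      apply AddSubgroup.sub_mem
      · apply AddSubgroup.sum_mem
        intro e h7
        rw [mem_filter] at h7
        apply key e _ (Or.inr h7.2)
        rintro rfl
        exact hne (by rw [hv, h7.2])
      · apply AddSubgroup.sum_mem
        intro e h7
        rw [mem_erase, mem_filter] at h7
        exact key e h7.1 (Or.inl h7.2.2)
    · have a1 : e₁ ∈ univ.filter (fun e => t e = v) := by simp [hv]
      rw [← add_sum_erase _ _ a1] at hk
      have h6 : f e₁ = ∑ e ∈ univ.filter (fun e => s e = v), f e - ∑ e ∈ (univ.filter (fun e => t e = v)).erase e₁, f e := by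
        linarith
      rw [h6]
      apply AddSubgroup.sub_mem
      · apply AddSubgroup.sum_mem
        intro e h7
        rw [mem_filter] at h7
        apply key e _ (Or.inl h7.2)
        rintro rfl
        exact hne (by rw [hv, h7.2])
      · apply AddSubgroup.sum_mem
        intro e h7
        rw [mem_erase, mem_filter] at h7
        exact key e h7.1 (Or.inr h7.2.2)
  obtain ⟨z, hz⟩ := main
  have hz' : (z : ℝ) = f e₁ := hz
  rw [hS, ← hz'] at he
  have b1 : lo e₁ < z := by exact_mod_cast he.1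
  have b2 : z < hi e₁ := by exact_mod_cast he.2
  have b3 := h3 e₁
  omega

private theorem kernel {s t : Fin m → Fin n} {S : Finset (Fin m)} (hne : S.Nonempty)
    (h2 : ∀ e₁ ∈ S, ∀ v, (s e₁ = v ∨ t e₁ = v) → ∃ e₂ ∈ S, e₂ ≠ e₁ ∧ (s e₂ = v ∨ t e₂ = v)) :
    ∃ h : Fin m → ℝ, h ≠ 0 ∧ Kir s t h ∧ ∀ e, e ∉ S → h e = 0 := by
  classical
  obtain ⟨W, hW⟩ : ∃ W : Finset (Fin n), W = S.image s ∪ S.image t := ⟨_, rfl⟩
  obtain ⟨e₀, he₀⟩ := hne
  have hs : ∀ e ∈ S, s e ∈ W := fun e he => by rw [hW, mem_union]; exact Or.inl (mem_image_of_mem s he)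
  have ht : ∀ e ∈ S, t e ∈ W := fun e he => by rw [hW, mem_union]; exact Or.inr (mem_image_of_mem t he)
  have hWS : W.card ≤ S.card := by
    have a : ∑ v ∈ W, 2 ≤ ∑ v ∈ W, ((S.filter (fun e => s e = v)).card + (S.filter (fun e => t e = v)).card) := by
      apply sum_le_sum
      intro v hv
      obtain ⟨e₁, he₁, hv1⟩ : ∃ e₁ ∈ S, s e₁ = v ∨ t e₁ = v := by
        rw [hW, mem_union, mem_image, mem_image] at hv
        rcases hv with ⟨e, h, h'⟩ | ⟨e, h, h'⟩
        · exact ⟨e, h, Or.inl h'⟩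
        · exact ⟨e, h, Or.inr h'⟩
      obtain ⟨e₂, he₂, hne, hv2⟩ := h2 e₁ he₁ v hv1
      have h3 : 1 < (S.filter (fun e => s e = v) ∪ S.filter (fun e => t e = v)).card := by
        rw [one_lt_card]
        refine ⟨e₁, ?_, e₂, ?_, hne.symm⟩
        · rw [mem_union, mem_filter, mem_filter]; tauto
        · rw [mem_union, mem_filter, mem_filter]; tauto
      have h4 := card_union_le (S.filter (fun e => s e = v)) (S.filter (fun e => t e = v))
      omega
    have b1 : S.card = ∑ v ∈ W, (S.filter (fun e => s e = v)).card := card_eq_sum_card_fiberwise (fun e he => hs e he)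
    have b2 : S.card = ∑ v ∈ W, (S.filter (fun e => t e = v)).card := card_eq_sum_card_fiberwise (fun e he => ht e he)
    rw [sum_add_distrib, ← b1, ← b2, sum_const, smul_eq_mul] at a
    omega
  let L : (Fin m → ℝ) →ₗ[ℝ] ({e // e ∈ Sᶜ} → ℝ) × ({v // v ∈ W.erase (s e₀)} → ℝ) :=
    { toFun := fun x => (fun e => x e,
        fun v => ∑ e ∈ univ.filter (fun e => s e = (v : Fin n)), x e - ∑ e ∈ univ.filter (fun e => t e = (v : Fin n)), x e)
      map_add' := by
        intro x y
        refine Prod.ext ?_ ?_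
        · rfl
        · funext v
          simp only [Pi.add_apply, Prod.snd_add, sum_add_distrib]
          ring
      map_smul' := by
        intro r x
        refine Prod.ext ?_ ?_
        · rfl
        · funext v
          simp only [Pi.smul_apply, Prod.smul_snd, smul_eq_mul, RingHom.id_apply, ← mul_sum]
          ring }
  have hcard : 0 < S.card := card_pos.2 ⟨e₀, he₀⟩
  have hcS : S.card ≤ m := by simpa using card_le_univ S
  have hker : LinearMap.ker L ≠ ⊥ := by
    apply LinearMap.ker_ne_bot_of_finrank_lt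
    rw [Module.finrank_prod, Module.finrank_fintype_fun_eq_card, Module.finrank_fintype_fun_eq_card, Module.finrank_fintype_fun_eq_card,
      Fintype.card_coe, Fintype.card_coe, card_compl, card_erase_of_mem (hs e₀ he₀), Fintype.card_fin]
    omega
  obtain ⟨x, hx, hx0⟩ := (Submodule.ne_bot_iff _).1 hker
  rw [LinearMap.mem_ker] at hx
  have x1 : ∀ e, e ∉ S → x e = 0 := by
    intro e he
    exact congrFun (congrArg Prod.fst hx) ⟨e, mem_compl.2 he⟩
  have x2 : ∀ v, v ≠ s e₀ → ∑ e ∈ univ.filter (fun e => s e = v), x e - ∑ e ∈ univ.filter (fun e => t e = v), x e = 0 := by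
    intro v hv
    by_cases hvW : v ∈ W
    · exact congrFun (congrArg Prod.snd hx) ⟨v, mem_erase.2 ⟨hv, hvW⟩⟩
    · rw [sum_eq_zero, sum_eq_zero, sub_zero]
      · intro e he
        rw [mem_filter] at he
        exact x1 e (fun h => hvW (he.2 ▸ ht e h))
      · intro e he
        rw [mem_filter] at he
        exact x1 e (fun h => hvW (he.2 ▸ hs e h))
  have x3 : ∑ v, (∑ e ∈ univ.filter (fun e => s e = v), x e - ∑ e ∈ univ.filter (fun e => t e = v), x e) = 0 := by
    rw [sum_sub_distrib, sum_fiberwise, sum_fiberwise, sub_self]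
  refine ⟨x, hx0, ?_, x1⟩
  intro v
  apply sub_eq_zero.1
  by_cases hv : v = s e₀
  · rw [sum_eq_single (s e₀) (fun w _ hw => x2 w hw) (fun h => absurd (mem_univ _) h)] at x3
    rw [hv]
    exact x3
  · exact x2 v hv

private theorem roundB (s t : Fin m → Fin n) (hl : ∀ e, s e ≠ t e) (c : Fin m → ℝ) (lo hi : Fin m → ℤ)
    (h3 : ∀ e, hi e ≤ lo e + 1) : ∀ (N : ℕ) (f : Fin m → ℝ), Kir s t f → (∀ e, (lo e : ℝ) ≤ f e) → (∀ e, f e ≤ hi e) →
      (univ.filter (fun e => (lo e : ℝ) < f e ∧ f e < hi e)).card = N →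
      ∃ g : Fin m → ℤ, Kir s t g ∧ (∀ e, lo e ≤ g e ∧ g e ≤ hi e) ∧ ∑ e, c e * (g e : ℝ) ≤ ∑ e, c e * f e := by
  classical
  intro N
  induction N using Nat.strong_induction_on with
  | _ N ih =>
  intro f hf h1 h2 hN
  obtain ⟨S, hSdef⟩ : ∃ S : Finset (Fin m), S = univ.filter (fun e => (lo e : ℝ) < f e ∧ f e < hi e) := ⟨_, rfl⟩
  have hS : ∀ e, e ∈ S ↔ ((lo e : ℝ) < f e ∧ f e < hi e) := by
    intro e
    rw [hSdef, mem_filter]
    exact ⟨fun h => h.2, fun h => ⟨mem_univ _, h⟩⟩
  by_cases hSn : S.Nonempty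
  · obtain ⟨h', hh0', hh1', hh2'⟩ := kernel (s := s) (t := t) hSn (fun e₁ he v hv => second hl hf h1 h2 h3 hS e₁ he v hv)
    obtain ⟨h, hh0, hh1, hh2, hh3⟩ : ∃ h : Fin m → ℝ, h ≠ 0 ∧ Kir s t h ∧ (∀ e, e ∉ S → h e = 0) ∧ ∑ e, c e * h e ≤ 0 := by
      rcases le_total (∑ e, c e * h' e) 0 with h4 | h4
      · exact ⟨h', hh0', hh1', hh2', h4⟩
      · refine ⟨-h', neg_ne_zero.2 hh0', ?_, ?_, ?_⟩
        · intro v
          simp only [Pi.neg_apply, sum_neg_distrib]
          rw [hh1' v]
        · intro e he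
          rw [Pi.neg_apply, hh2' e he, neg_zero]
        · simp only [Pi.neg_apply, mul_neg, sum_neg_distrib]
          linarith
    obtain ⟨e', he'⟩ := Function.ne_iff.1 hh0
    have hT : (univ.filter (fun e => h e ≠ 0)).Nonempty := ⟨e', by simpa using he'⟩
    obtain ⟨e₁, he₁, hmin⟩ := exists_min_image (univ.filter (fun e => h e ≠ 0))
      (fun e => if 0 < h e then (hi e - f e) / h e else (lo e - f e) / h e) hT
    have hmin' : ∀ e, h e ≠ 0 → (if 0 < h e₁ then (hi e₁ - f e₁) / h e₁ else (lo e₁ - f e₁) / h e₁) ≤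
        (if 0 < h e then (hi e - f e) / h e else (lo e - f e) / h e) := fun e he => hmin e (by simpa using he)
    rw [mem_filter] at he₁
    obtain ⟨θ, hθ⟩ : ∃ θ : ℝ, θ = (if 0 < h e₁ then (hi e₁ - f e₁) / h e₁ else (lo e₁ - f e₁) / h e₁) := ⟨_, rfl⟩
    rw [← hθ] at hmin'
    have hθ0 : 0 ≤ θ := by
      rw [hθ]
      split_ifs with h5
      · exact div_nonneg (by linarith [h2 e₁]) h5.le
      · exact div_nonneg_of_nonpos (by linarith [h1 e₁]) (not_lt.1 h5)
    have up : ∀ e, 0 < h e → f e + θ * h e ≤ hi e := by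
      intro e he
      have h6 := hmin' e he.ne'
      rw [if_pos he, le_div_iff₀ he] at h6
      linarith
    have dn : ∀ e, h e < 0 → (lo e : ℝ) ≤ f e + θ * h e := by
      intro e he
      have h6 := hmin' e he.ne
      rw [if_neg (not_lt.2 he.le), le_div_iff_of_neg he] at h6
      linarith
    have g1 : ∀ e, (lo e : ℝ) ≤ f e + θ * h e := by
      intro e
      rcases lt_or_ge (h e) 0 with h6 | h6
      · exact dn e h6
      · linarith [h1 e, mul_nonneg hθ0 h6]
    have g2 : ∀ e, f e + θ * h e ≤ hi e := by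
      intro e
      rcases lt_or_ge 0 (h e) with h6 | h6
      · exact up e h6
      · linarith [h2 e, mul_nonpos_of_nonneg_of_nonpos hθ0 h6]
    have g3 : Kir s t (fun e => f e + θ * h e) := by
      intro v
      simp only [sum_add_distrib, ← mul_sum]
      rw [hf v, hh1 v]
    have g4 : f e₁ + θ * h e₁ = hi e₁ ∨ f e₁ + θ * h e₁ = lo e₁ := by
      rw [hθ]
      split_ifs with h5
      · left
        rw [div_mul_cancel₀ _ he₁.2]
        ring
      · right
        rw [div_mul_cancel₀ _ he₁.2]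
        ring
    have g5 : (univ.filter (fun e => (lo e : ℝ) < f e + θ * h e ∧ f e + θ * h e < hi e)).card < N := by
      rw [← hN]
      apply card_lt_card
      rw [← hSdef, ssubset_iff_of_subset]
      · refine ⟨e₁, ?_, ?_⟩
        · by_contra h6
          exact he₁.2 (hh2 e₁ h6)
        · rw [mem_filter]
          rintro ⟨-, h7, h8⟩
          rcases g4 with h9 | h9
          · linarith
          · linarith
      · intro e he
        rw [mem_filter] at he
        by_contra h6
        have h7 := hh2 e h6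
        rw [h7, mul_zero, add_zero] at he
        exact h6 ((hS e).2 he.2)
    obtain ⟨g, k1, k2, k3⟩ := ih _ g5 _ g3 g1 g2 rfl
    refine ⟨g, k1, k2, k3.trans ?_⟩
    have h8 : ∑ e, c e * (f e + θ * h e) = ∑ e, c e * f e + θ * ∑ e, c e * h e := by
      rw [mul_sum, ← sum_add_distrib]
      apply sum_congr rfl
      intro e _
      ring
    rw [h8]
    linarith [mul_nonpos_of_nonneg_of_nonpos hθ0 hh3]
  · have h4 : ∀ e, ∃ z : ℤ, (z : ℝ) = f e ∧ lo e ≤ z ∧ z ≤ hi e := fun e =>
      isInt (h1 e) (h2 e) (fun h => hSn ⟨e, (hS e).2 h⟩)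
    choose g hg hg2 using h4
    refine ⟨g, ?_, hg2, ?_⟩
    · intro v
      have h5 := hf v
      simp only [← hg] at h5
      exact_mod_cast h5
    · simp only [hg, le_refl]

theorem round (s t : Fin m → Fin n) (hl : ∀ e, s e ≠ t e) (f : Fin m → ℝ) (hf : Kir s t f) (c : Fin m → ℝ) :
    ∃ g : Fin m → ℤ, Kir s t g ∧ (∀ e, ⌊f e⌋ ≤ g e ∧ g e ≤ ⌈f e⌉) ∧ ∑ e, c e * (g e : ℝ) ≤ ∑ e, c e * f e :=
  roundB s t hl c (fun e => ⌊f e⌋) (fun e => ⌈f e⌉) (fun e => Int.ceil_le_floor_add_one (f e)) _ f hf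
    (fun e => Int.floor_le (f e)) (fun e => Int.le_ceil (f e)) rfl

end Pool.Agent.Lib.MP_239067_co.NTC
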